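import Pool.Agent.Q44.JQ.StmG
import Pool.Agent.Q24.JQ.LOCI

/-!
# Project JQ (helper44), job ARXE: the package for elliptic curves
-/

set_option autoImplicit false
set_option linter.unusedVariables false

namespace Pool.Agent.Q285.JQ

open Finset Module Q44.JQ
open Pool.Agent.Y703.CQ (nr)
open Pool.Agent.TH344.JG (LocJ SelJ PR df)
open Pool.Agent.Y723.PT (tw dc LG)
open Pool.Agent.Q24.JQ (t_LOCI dz_ne cop_ne)
open scoped Classical

theorem t_ARXE (hLXC : S_LXC) (hSELY : S_SELY) (hSELX : S_SELX) (hLCL : S_LCL) (hOMV : S_OMV)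
    (hQZ : S_QZ) (hQLOC : S_QLOC) : S_ARXE := by
  intro T hT h2T c hg
  choose L hL hc using fun ρ => hLXC T hT h2T c hg ρ
  obtain ⟨hSym, hnd, hcard, hfr, hnt⟩ := hOMV T c ⊥
  have hodd : Odd (2 * c.g + 1) := ⟨c.g, rfl⟩
  refine ⟨L, ?_, hL, ?_⟩
  · intro ρ
    refine ⟨⟨hSym.alt, hSym.adj⟩, hnd, hc ρ, ?_, fun x => ?_⟩
    · intro y hy
      obtain ⟨hR, hp⟩ := (hL ρ y).1 hy
      obtain ⟨n, z, hn, hnl, hz, hLR⟩ := hR
      have hn0 : ((n : ℕ) : ℤ) ≠ 0 := by exact_mod_cast cop_ne h2T hn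
      have hd0 : ∀ i, c.dz y.1 z i ≠ 0 := dz_ne hT h2T c y.1 fun i => (hz i).1
      obtain ⟨-, o2⟩ := t_LOCI T hT h2T c ρ y n z hn hnl hz
      rw [hQZ T hT h2T c (L ρ) y z hz,
        hQLOC.2 (2 * c.g + 1) c.a (c.dz y.1 z) n hodd hn0 c.inj hd0 hLR, zero_add]
      refine Finset.sum_eq_zero fun p hpT => ?_
      have : Fact p.Prime := ⟨hT p hpT⟩
      have h3 : c.Lc ℚ_[p] ρ y := hp p hpT
      exact hQLOC.1 p (2 * c.g + 1) c.a (c.dz y.1 z) n hodd hn0 c.inj hd0 ((o2 p hpT).mp h3)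
    · have hps : ∀ t : Option T, @Pi.single (Option T) (fun _ => ZMod 2) _
          (fun a b => Classical.propDecidable (a = b)) t 1 = (Pi.single t 1 : Option T → ZMod 2) := by
        intro t
        congr 1
        exact Subsingleton.elim _ _
      have hx : ((fun t => (c.dj (L ρ)).T (@Pi.single (Option T) (fun _ => ZMod 2) _
          (fun a b => Classical.propDecidable (a = b)) t 1) x), (fun t => ρ t • x)) =
          (((fun t => c.TT (Pi.single t 1) x), (fun t => ρ t • x)) :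
            (Option T → c.V) × (Option T → c.V)) := by
        refine Prod.ext (funext fun t => ?_) rfl
        show c.TT (@Pi.single (Option T) (fun _ => ZMod 2) _
          (fun a b => Classical.propDecidable (a = b)) t 1) x = c.TT (Pi.single t 1) x
        rw [hps t]
      show ((fun t => (c.dj (L ρ)).T (@Pi.single (Option T) (fun _ => ZMod 2) _
          (fun a b => Classical.propDecidable (a = b)) t 1) x), (fun t => ρ t • x)) ∈ L ρ
      rw [hx]
      refine (hL ρ _).2 ⟨(hLCL T hT h2T c ρ).2.2.1 x, fun p hp => ?_⟩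
      intro _
      exact ((hLCL T hT h2T c ρ).2.2.2 p hp).2.2 x
  · intro ρ S hS hρ
    obtain ⟨h1, h2⟩ := hSELX T hT h2T c ρ (L ρ) (fun y h h' => (hL ρ y).2 ⟨h, h'⟩) S hS hρ
    refine ⟨h1, le_antisymm h2 ?_⟩
    exact hSELY T hT h2T c hg ρ (L ρ) (fun y hy => (hL ρ y).1 hy) S hS hρ h1

end Pool.Agent.Q285.JQ
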