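import Pool.Agent.Q44.JQ.StmG

/-!
# Project JQ (helper44), job LSQ: the label of a local square is zero
-/

set_option autoImplicit false
set_option linter.unusedVariables false

namespace Pool.Agent.Q285.JQ

open Finset Module Q44.JQ
open scoped Classical

/-- squares and powers of primes -/
theorem sq_zpow {p n : ℕ} [Fact p.Prime] (k : ℕ) (hpn : ¬ p ∣ n)
    (h : IsSquare ((n : ℕ) : ℚ_[p])) : IsSquare ((n : ℕ) : ZMod (p ^ k)) := by
  obtain ⟨x, hx⟩ := h
  have h1 : ‖((n : ℕ) : ℚ_[p])‖ = 1 := by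
    rw [Padic.norm_natCast_eq_one_iff]
    exact (Nat.Prime.coprime_iff_not_dvd Fact.out).mpr hpn
  have h2 : ‖x‖ = 1 := by
    have : ‖x‖ * ‖x‖ = 1 := by rw [← norm_mul, ← hx, h1]
    nlinarith [norm_nonneg x]
  let y : ℤ_[p] := ⟨x, h2.le⟩
  have h3 : ((n : ℕ) : ℤ_[p]) = y * y := by
    apply Subtype.ext
    push_cast
    exact hx
  have h4 := congrArg (PadicInt.toZModPow (p := p) k) h3
  rw [map_natCast, map_mul] at h4
  exact ⟨_, h4⟩

/-- Chinese remainder theorem for squares -/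
theorem sq_crt {m k n : ℕ} (h : m.Coprime k) (hm : IsSquare ((n : ℕ) : ZMod m))
    (hk : IsSquare ((n : ℕ) : ZMod k)) : IsSquare ((n : ℕ) : ZMod (m * k)) := by
  obtain ⟨x, hx⟩ := hm
  obtain ⟨y, hy⟩ := hk
  refine ⟨(ZMod.chineseRemainder h).symm (x, y), ?_⟩
  apply (ZMod.chineseRemainder h).injective
  rw [map_mul, RingEquiv.apply_symm_apply, map_natCast]
  exact Prod.ext hx hy

theorem z2dbl : ∀ x : ZMod 2, x + x = 0 := by decide

theorem t_LSQ (hLBL : S_LBL) : S_LSQ := by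
  intro T hT h2T n hn hsq
  obtain ⟨l1, -, -, -, l5, -⟩ := hLBL T hT h2T
  have hA : ∀ A : Finset ℕ, A ⊆ T → (∀ p ∈ A, p ≠ 2) →
      IsSquare ((n : ℕ) : ZMod (∏ p ∈ A, p)) := by
    intro A
    induction A using Finset.induction_on with
    | empty =>
      intro _ _
      rw [prod_empty]
      exact ⟨0, Subsingleton.elim _ _⟩
    | insert p A hp ih =>
      intro hA h2
      rw [prod_insert hp]
      have hpT : p ∈ T := hA (mem_insert_self _ _)
      have : Fact p.Prime := ⟨hT p hpT⟩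
      refine sq_crt ?_ ?_ (ih (fun x hx => hA (mem_insert_of_mem hx))
        fun x hx => h2 x (mem_insert_of_mem hx))
      · refine Nat.Coprime.prod_right fun q hq => ?_
        refine (Nat.coprime_primes (hT p hpT) (hT q (hA (mem_insert_of_mem hq)))).2 ?_
        rintro rfl
        exact hp hq
      · have h := sq_zpow 1 (hn p hpT) (hsq p hpT)
        rwa [pow_one] at h
  have : Fact (Nat.Prime 2) := ⟨Nat.prime_two⟩
  have h16 := sq_zpow 4 (hn 2 h2T) (hsq 2 h2T)
  have hE := hA (T.erase 2) (erase_subset _ _) fun p hp => (mem_erase.1 hp).1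
  have hM : 8 * ∏ p ∈ T, p = 2 ^ 4 * ∏ p ∈ T.erase 2, p := by
    rw [← mul_prod_erase T (fun p => p) h2T]
    ring
  have hcop : (2 ^ 4).Coprime (∏ p ∈ T.erase 2, p) := by
    refine Nat.Coprime.pow_left 4 (Nat.Coprime.prod_right fun q hq => ?_)
    exact (Nat.coprime_primes Nat.prime_two (hT q (mem_erase.1 hq).2)).2 (mem_erase.1 hq).1.symm
  have hS := sq_crt hcop h16 hE
  rw [← hM] at hS
  obtain ⟨y, hy⟩ := hS
  have hM0 : 0 < 8 * ∏ p ∈ T, p :=
    Nat.mul_pos (by norm_num) (Finset.prod_pos fun p hp => (hT p hp).pos)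
  have : NeZero (8 * ∏ p ∈ T, p) := ⟨hM0.ne'⟩
  have hx : ((n : ℕ) : ZMod (8 * ∏ p ∈ T, p)) = ((y.val * y.val : ℕ) : ZMod (8 * ∏ p ∈ T, p)) := by
    rw [hy]
    push_cast
    rw [ZMod.natCast_zmod_val]
  have hmod := (ZMod.natCast_eq_natCast_iff' _ _ _).1 hx
  have hc : Cop T y.val := by
    intro p hp hd
    refine hn p hp ?_
    have h1 : p ∣ 8 * ∏ p ∈ T, p := (Finset.dvd_prod_of_mem (fun p : ℕ => p) hp).mul_left 8
    rw [← Nat.dvd_mod_iff h1, hmod, Nat.dvd_mod_iff h1]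
    exact hd.mul_left _
  have hcc : Cop T (y.val * y.val) := by
    intro p hp hd
    rcases (hT p hp).dvd_mul.1 hd with h | h
    · exact hc p hp h
    · exact hc p hp h
  rw [l5 n (y.val * y.val) hn hmod, l1 _ _ hc hc]
  funext o
  exact z2dbl _

end Pool.Agent.Q285.JQ
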