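import Pool.Agent.Q285.JQ.ROW

/-!
# Project JQ: the quadratic form of the system is the sum of the local forms
-/

set_option autoImplicit false
set_option linter.unusedVariables false

namespace Pool.Agent.Q285.JQ

open Finset Module Q44.JQ
open Pool.Agent.Y703.CQ (nr)
open Pool.Agent.TH344.JG (LocJ SelJ PR df)
open Pool.Agent.Y723.PT (tw dc LG locJ_iff isot)
open Pool.Agent.W313.BMX (Splits)
open Pool.Agent.Y676.HS (hs bl_padic)
open Q44.BN (jv)
open Q44.TI (ch ch_mul ch_zero)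
open scoped Classical

section

variable {T : Finset ℕ} (c : Cr T)

/-- the symbol of `-1` -/
theorem ch_swap {p : ℕ} (pp : p.Prime) (hpT : p ∉ T) {i j : Fin (2 * c.g + 1)} (hij : i ≠ j) :
    ch ((c.a i - c.a j : ℤ) : ZMod p) + ch ((c.a j - c.a i : ℤ) : ZMod p) =
      ch ((-1 : ℤ) : ZMod p) := by
  have h1 : c.a j - c.a i = -1 * (c.a i - c.a j) := by ring
  have h2 : ¬ (p : ℤ) ∣ -1 := by
    rw [dvd_neg]
    exact nd_one pp
  rw [h1, ch_mul' pp h2 (df_nd c pp hpT hij)]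
  have : ∀ x y : ZMod 2, x + (y + x) = y := by decide
  exact this _ _

/-- the local form at a prime outside of `T` -/
theorem qp_tame (hTAME : S_TAME) {p : ℕ} (pp : p.Prime) (hp2 : p ≠ 2) (hpT : p ∉ T)
    (w : Fin (2 * c.g + 1) → ZMod 2) (u : Fin (2 * c.g + 1) → ℤ) (hu : ∀ i, ¬ (p : ℤ) ∣ u i)
    (hsu : ∑ i, ch ((u i : ℤ) : ZMod p) = 0) :
    qp p c.a (fun i => (p : ℤ) ^ (w i).val * u i) = ∑ i, w i * ch ((u i : ℤ) : ZMod p) +
      ∑ i, ∑ j ∈ univ.erase i, ch ((c.a i - c.a j : ℤ) : ZMod p) * w i +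
      ∑ i, ∑ j ∈ univ.filter (fun j => i < j), w i * w j * ch ((-1 : ℤ) : ZMod p) := by
  unfold qp
  have h1 : ∀ i j, Q44.JQ.hp p ((p : ℤ) ^ (w i).val * u i) ((p : ℤ) ^ (w j).val * u j) =
      w i * w j * ch ((-1 : ℤ) : ZMod p) + (w i * ch ((u j : ℤ) : ZMod p) +
        w j * ch ((u i : ℤ) : ZMod p)) := by
    intro i j
    rw [hTAME p pp hp2 _ _ _ _ (hu i) (hu j), val_cast, val_cast]
    ring
  have h2 : ∀ i, Q44.JQ.hp p ((p : ℤ) ^ (w i).val * u i) (∏ j ∈ univ.erase i, (c.a i - c.a j)) =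
      ∑ j ∈ univ.erase i, ch ((c.a i - c.a j : ℤ) : ZMod p) * w i := by
    intro i
    have h3 : ∀ j ∈ univ.erase i, ¬ (p : ℤ) ∣ c.a i - c.a j :=
      fun j hj => df_nd c pp hpT (mem_erase.1 hj).1.symm
    have h4 := hTAME p pp hp2 (w i).val 0 (u i) (∏ j ∈ univ.erase i, (c.a i - c.a j)) (hu i)
      (nd_prod pp _ _ h3)
    rw [pow_zero, one_mul, val_cast, ch_prod pp _ _ h3] at h4
    rw [h4, ← sum_mul]
    push_cast
    ring
  have h5 : ∀ i, ∑ j ∈ univ.filter (fun j => i < j), Q44.JQ.hp p ((p : ℤ) ^ (w i).val * u i)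
      ((p : ℤ) ^ (w j).val * u j) =
      ∑ j ∈ univ.filter (fun j => i < j), w i * w j * ch ((-1 : ℤ) : ZMod p) +
      ∑ j ∈ univ.filter (fun j => i < j), (w i * ch ((u j : ℤ) : ZMod p) +
        w j * ch ((u i : ℤ) : ZMod p)) := by
    intro i
    rw [← sum_add_distrib]
    exact sum_congr rfl fun j _ => h1 i j
  have h6 : ∑ i, ∑ j ∈ univ.filter (fun j => i < j), (w i * ch ((u j : ℤ) : ZMod p) +
        w j * ch ((u i : ℤ) : ZMod p)) = ∑ i, w i * ch ((u i : ℤ) : ZMod p) := by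
    rw [← sum_offdiag fun i j => w i * ch ((u j : ℤ) : ZMod p)]
    refine sum_congr rfl fun i _ => ?_
    rw [← mul_sum]
    have h7 := add_sum_erase univ (fun j => ch ((u j : ℤ) : ZMod p)) (mem_univ i)
    rw [hsu] at h7
    have h8 : ∀ x y : ZMod 2, x + y = 0 → y = x := by decide
    rw [h8 _ _ h7]
  rw [sum_congr rfl fun i _ => h5 i, sum_add_distrib, h6, sum_congr rfl fun i _ => h2 i]
  ring

/-- the form at the row -/
theorem om_row (hLBL : S_LBL) (hT : ∀ q ∈ T, q.Prime) (h2 : 2 ∈ T)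
    (𝓛 : Submodule (ZMod 2) ((Option T → c.V) × (Option T → c.V))) {P : Type} [Fintype P]
    (m : P → ℕ) (hm : ∀ p, (m p).Prime ∧ m p ∉ T) (e : (Option T → c.V) × (P → c.V)) (p : P) :
    (c.dj 𝓛).ω (e.2 p) (rowL (c.dj 𝓛) (fun p q => nr (m p) (m q)) (fun p => lbl T (m p)) e p) =
      ∑ i, (e.2 p).1 i * (∑ o, (e.1 o).1 i * lbl T (m p) o +
        ∑ q ∈ univ.erase p, (e.2 q).1 i * nr (m p) (m q)) +
      ∑ i, ∑ j ∈ univ.erase i, ch ((c.a i - c.a j : ℤ) : ZMod (m p)) * (e.2 p).1 i +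
      ∑ i, ∑ j ∈ univ.filter (fun j => i < j), (e.2 p).1 i * (e.2 p).1 j *
        ch ((-1 : ℤ) : ZMod (m p)) := by
  obtain ⟨pp, hpT⟩ := hm p
  have h1 : (c.dj 𝓛).ω (e.2 p) (rowL (c.dj 𝓛) (fun p q => nr (m p) (m q)) (fun p => lbl T (m p)) e p) =
      ∑ i, (e.2 p).1 i *
        (rowL (c.dj 𝓛) (fun p q => nr (m p) (m q)) (fun p => lbl T (m p)) e p).1 i := rfl
  rw [h1]
  obtain ⟨w, hw⟩ : ∃ w : Fin (2 * c.g + 1) → ZMod 2, w = (e.2 p).1 := ⟨_, rfl⟩
  have hw0 : ∑ i, w i = 0 := by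
    rw [hw]
    exact (e.2 p).2
  have hsq : ∀ x : ZMod 2, x * x = x := by decide
  have hxx : ∀ x : ZMod 2, x + x = 0 := by decide
  have h3 : ∀ i, (e.2 p).1 i *
      (rowL (c.dj 𝓛) (fun p q => nr (m p) (m q)) (fun p => lbl T (m p)) e p).1 i =
      (e.2 p).1 i * (∑ o, (e.1 o).1 i * lbl T (m p) o +
        ∑ q ∈ univ.erase p, (e.2 q).1 i * nr (m p) (m q)) +
      w i * (∑ q ∈ univ.erase p, nr (m p) (m q) + ch ((-1 : ℤ) : ZMod (m p))) +
      ∑ j ∈ univ.erase i, ch ((c.a i - c.a j : ℤ) : ZMod (m p)) * w i +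
      ∑ j ∈ univ.erase i, ch ((c.a i - c.a j : ℤ) : ZMod (m p)) * (w i * w j) := by
    intro i
    rw [row_comp, tf_ch c hLBL hT h2 pp hpT, ← hw]
    have e1 : ∑ q, nr (m p) (m q) * ((e.2 q).1 i + w i) =
        ∑ q ∈ univ.erase p, (e.2 q).1 i * nr (m p) (m q) +
        (∑ q ∈ univ.erase p, nr (m p) (m q)) * w i := by
      rw [← add_sum_erase univ _ (mem_univ p), sum_mul, ← sum_add_distrib, ← hw, hxx, mul_zero,
        zero_add]
      exact sum_congr rfl fun q _ => by ring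
    have e2 : ∑ t, lbl T (m p) t * (e.1 t).1 i = ∑ t, (e.1 t).1 i * lbl T (m p) t :=
      sum_congr rfl fun t _ => mul_comm _ _
    have e3 : w i * ∑ j ∈ univ.erase i, ch ((c.a i - c.a j : ℤ) : ZMod (m p)) * (w i + w j) =
        ∑ j ∈ univ.erase i, ch ((c.a i - c.a j : ℤ) : ZMod (m p)) * w i +
        ∑ j ∈ univ.erase i, ch ((c.a i - c.a j : ℤ) : ZMod (m p)) * (w i * w j) := by
      rw [mul_sum, ← sum_add_distrib]
      refine sum_congr rfl fun j _ => ?_
      have := hsq (w i)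
      linear_combination (ch ((c.a i - c.a j : ℤ) : ZMod (m p))) * this
    rw [e1, e2]
    have := hsq (w i)
    linear_combination e3 + (∑ q ∈ univ.erase p, nr (m p) (m q) + ch ((-1 : ℤ) : ZMod (m p))) * this
  rw [sum_congr rfl fun i _ => h3 i, sum_add_distrib, sum_add_distrib, sum_add_distrib, ← sum_mul,
    hw0, zero_mul, add_zero, ← hw]
  congr 1
  rw [sum_offdiag fun i j => ch ((c.a i - c.a j : ℤ) : ZMod (m p)) * (w i * w j)]
  refine sum_congr rfl fun i _ => sum_congr rfl fun j hj => ?_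
  have hij : i ≠ j := (mem_filter.1 hj).2.ne
  rw [← ch_swap c pp hpT hij]
  ring

/-- the form at the row is the local form -/
theorem row_qp (hTAME : S_TAME) (hLBL : S_LBL) (hT : ∀ q ∈ T, q.Prime) (h2 : 2 ∈ T)
    (𝓛 : Submodule (ZMod 2) ((Option T → c.V) × (Option T → c.V))) {P : Type} [Fintype P]
    (m : P → ℕ) (hm : ∀ p, (m p).Prime ∧ m p ∉ T) (hminj : Function.Injective m)
    (e : (Option T → c.V) × (P → c.V)) (p : P) :
    (c.dj 𝓛).ω (e.2 p) (rowL (c.dj 𝓛) (fun p q => nr (m p) (m q)) (fun p => lbl T (m p)) e p) =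
      qp (m p) c.a (c.dz e.1 fun i => ∏ t, if (e.2 t).1 i = 0 then 1 else m t) := by
  have hp2 : m p ≠ 2 := fun h => (hm p).2 (h ▸ h2)
  rw [om_row c hLBL hT h2 𝓛 m hm e p]
  have hqnd : ∀ q ∈ univ.erase p, ¬ ((m p : ℕ) : ℤ) ∣ ((m q : ℕ) : ℤ) := by
    intro q hq h
    have h1 := (Nat.prime_dvd_prime_iff_eq (hm p).1 (hm q).1).1 (Int.natCast_dvd_natCast.1 h)
    exact (mem_erase.1 hq).1 (hminj h1).symm
  obtain ⟨u, hu⟩ : ∃ u : Fin (2 * c.g + 1) → ℤ, u = fun i => Uo (fun o => (e.1 o).1 i) *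
    ∏ q ∈ univ.erase p, (if (e.2 q).1 i = 0 then 1 else ((m q : ℕ) : ℤ)) := ⟨_, rfl⟩
  have hu2nd : ∀ i, ¬ ((m p : ℕ) : ℤ) ∣
      ∏ q ∈ univ.erase p, (if (e.2 q).1 i = 0 then 1 else ((m q : ℕ) : ℤ)) :=
    fun i => nd_prod (hm p).1 _ _ fun q hq => nd_bit (hm p).1 _ (hqnd q hq)
  have hpi : Prime ((m p : ℕ) : ℤ) := Nat.prime_iff_prime_int.1 (hm p).1
  have hund : ∀ i, ¬ ((m p : ℕ) : ℤ) ∣ u i := by
    intro i
    rw [hu]
    intro h
    rcases hpi.dvd_or_dvd h with h | h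
    · exact Uo_nd (hm p).1 hT (hm p).2 _ h
    · exact hu2nd i h
  have hchu : ∀ i, ch ((u i : ℤ) : ZMod (m p)) = ∑ o, (e.1 o).1 i * lbl T (m p) o +
      ∑ q ∈ univ.erase p, (e.2 q).1 i * nr (m p) (m q) := by
    intro i
    rw [hu]
    rw [ch_mul' (hm p).1 (Uo_nd (hm p).1 hT (hm p).2 _) (hu2nd i), ch_Uo (hm p).1 hT (hm p).2,
      ch_prod (hm p).1 _ _ fun q hq => nd_bit (hm p).1 _ (hqnd q hq)]
    congr 1
    · exact sum_congr rfl fun o _ => by rw [lbl_ch (hm p).1 hT (hm p).2]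
    · refine sum_congr rfl fun q _ => ?_
      rw [ch_bit, Q44.TI.nr_ch, Int.cast_natCast]
  have hsumu : ∑ i, ch ((u i : ℤ) : ZMod (m p)) = 0 := by
    rw [sum_congr rfl fun i _ => hchu i, sum_add_distrib, sum_comm,
      sum_comm (s := univ) (t := univ.erase p)]
    rw [sum_eq_zero, sum_eq_zero, add_zero]
    · intro q _
      rw [← sum_mul, (e.2 q).2, zero_mul]
    · intro o _
      rw [← sum_mul, (e.1 o).2, zero_mul]
  have hD : c.dz e.1 (fun i => ∏ t, if (e.2 t).1 i = 0 then 1 else m t) = fun i => ((m p : ℕ) : ℤ) ^ ((e.2 p).1 i).val * u i := by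
    funext i
    rw [hu]
    unfold Cr.dz
    rw [← bit_pow]
    push_cast
    rw [← mul_prod_erase univ _ (mem_univ p)]
    ring
  rw [hD, qp_tame c hTAME (hm p).1 (hp2) (hm p).2 _ u hund hsumu]
  congr 2
  exact sum_congr rfl fun i _ => by rw [hchu i]

end

/-- the product formula for the quadratic forms -/
theorem qv_qp (hPF : S_PF) {n : ℕ} (a d : Fin n → ℤ) (ha : Function.Injective a) (hd : ∀ i, d i ≠ 0)
    (W : Finset ℕ) (hW : ∀ p ∈ W, p.Prime) (h2 : 2 ∈ W)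
    (hdW : ∀ i, ∀ p : ℕ, p.Prime → (p : ℤ) ∣ d i → p ∈ W)
    (haW : ∀ i j, i ≠ j → ∀ p : ℕ, p.Prime → (p : ℤ) ∣ a i - a j → p ∈ W) :
    qv (fun i => ((a i : ℤ) : ℝ)) (fun i => ((d i : ℤ) : ℝ)) + ∑ p ∈ W, qp p a d = 0 := by
  have hP : ∀ i, (∏ j ∈ univ.erase i, (a i - a j)) ≠ 0 := by
    intro i
    rw [prod_ne_zero_iff]
    intro j hj
    rw [sub_ne_zero]
    exact fun h => (mem_erase.1 hj).1 (ha h).symm
  have h1 : ∀ i j, hv ((d i : ℤ) : ℝ) ((d j : ℤ) : ℝ) + ∑ p ∈ W, Q44.JQ.hp p (d i) (d j) = 0 := by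
    intro i j
    refine hPF _ _ (hd i) (hd j) W hW fun p pp h => ?_
    have hpi := Nat.prime_iff_prime_int.1 pp
    rcases hpi.dvd_or_dvd h with h | h
    · rcases hpi.dvd_or_dvd h with h | h
      · have : p = 2 := (Nat.prime_dvd_prime_iff_eq pp Nat.prime_two).1 (by exact_mod_cast h)
        rwa [this]
      · exact hdW i p pp h
    · exact hdW j p pp h
  have h3 : ∀ i, hv ((d i : ℤ) : ℝ) (dc (fun i => ((a i : ℤ) : ℝ)) i) +
      ∑ p ∈ W, Q44.JQ.hp p (d i) (∏ j ∈ univ.erase i, (a i - a j)) = 0 := by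
    intro i
    have e1 : dc (fun i => ((a i : ℤ) : ℝ)) i = ((∏ j ∈ univ.erase i, (a i - a j) : ℤ) : ℝ) := by
      unfold dc
      push_cast
      rfl
    rw [e1]
    refine hPF _ _ (hd i) (hP i) W hW fun p pp h => ?_
    have hpi := Nat.prime_iff_prime_int.1 pp
    rcases hpi.dvd_or_dvd h with h | h
    · rcases hpi.dvd_or_dvd h with h | h
      · have : p = 2 := (Nat.prime_dvd_prime_iff_eq pp Nat.prime_two).1 (by exact_mod_cast h)
        rwa [this]
      · exact hdW i p pp h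
    · obtain ⟨j, hj, h4⟩ := hpi.exists_mem_finset_dvd h
      exact haW i j (mem_erase.1 hj).1.symm p pp h4
  unfold qv qp
  rw [sum_add_distrib, sum_comm (s := W) (t := univ), sum_comm (s := W) (t := univ)]
  have h5 : ∀ i, ∑ p ∈ W, ∑ j ∈ univ.filter (fun j => i < j), Q44.JQ.hp p (d i) (d j) =
      ∑ j ∈ univ.filter (fun j => i < j), ∑ p ∈ W, Q44.JQ.hp p (d i) (d j) := fun i => sum_comm
  rw [sum_congr rfl fun i _ => h5 i, add_add_add_comm, ← sum_add_distrib, ← sum_add_distrib]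
  rw [sum_eq_zero, sum_eq_zero, add_zero]
  · intro i _
    exact h3 i
  · intro i _
    rw [← sum_add_distrib]
    exact sum_eq_zero fun j _ => h1 i j

/-- the label of a product -/
theorem lbl_prod (hLBL : S_LBL) {T : Finset ℕ} (hT : ∀ p ∈ T, p.Prime) (h2 : 2 ∈ T) {ι : Type*}
    (s : Finset ι) (f : ι → ℕ) (hf : ∀ i ∈ s, Cop T (f i)) (b : ι → ZMod 2) :
    Cop T (∏ i ∈ s, if b i = 0 then 1 else f i) ∧
      lbl T (∏ i ∈ s, if b i = 0 then 1 else f i) = ∑ i ∈ s, b i • lbl T (f i) := by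
  have h1 : Cop T 1 := fun p hp h => (hT p hp).one_lt.ne' (Nat.dvd_one.1 h)
  have hl1 : lbl T 1 = 0 := by
    funext o
    exact Q44.BN.jv_one _
  induction s using Finset.induction_on with
  | empty =>
    rw [prod_empty, sum_empty]
    exact ⟨h1, hl1⟩
  | insert a s ha ih =>
    obtain ⟨i1, i2⟩ := ih fun i hi => hf i (mem_insert_of_mem hi)
    have h3 : Cop T (if b a = 0 then 1 else f a) ∧
        lbl T (if b a = 0 then 1 else f a) = b a • lbl T (f a) := by
      rcases two_cases (b a) with h | h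
      · rw [h, if_pos rfl, zero_smul]
        exact ⟨h1, hl1⟩
      · rw [h, if_neg (by decide), one_smul]
        exact ⟨hf a (mem_insert_self a s), rfl⟩
    rw [prod_insert ha, sum_insert ha]
    refine ⟨fun p hp h => ?_, ?_⟩
    · rcases (hT p hp).dvd_mul.1 h with h | h
      · exact h3.1 p hp h
      · exact i1 p hp h
    · rw [(hLBL T hT h2).1 _ _ h3.1 i1, h3.2, i2]

/-- **job QZ** -/
theorem t_QZ (hID : S_ID) (hPF : S_PF) (hTAME : S_TAME) (hLBL : S_LBL) (hHVB : S_HVB)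
    (hOMV : S_OMV) : S_QZ := by
  intro T hT h2 c 𝓛 y z hz
  have L := hLBL T hT h2
  have hex : ∀ t : Option T, ∃ p : ℕ, p.Prime ∧ p ∉ T ∧ lbl T p = Pi.single t 1 := by
    intro t
    obtain ⟨p, h1, _, h3, h4⟩ := L.2.2.2.1 (Pi.single t 1) 0
    exact ⟨p, h1, h3, h4⟩
  choose m hmp hmT hml using hex
  have hminj : Function.Injective m := by
    intro t t' h
    by_contra hne
    have h3 : (Pi.single t 1 : Option T → ZMod 2) = Pi.single t' 1 := by rw [← hml, ← hml, h]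
    have h4 := congrFun h3 t
    rw [Pi.single_eq_same, Pi.single_eq_of_ne hne] at h4
    exact absurd h4 (by decide)
  have hm2 : ∀ t, m t ≠ 2 := fun t h => hmT t (h ▸ h2)
  have hcop : ∀ t, Cop T (m t) := fun t q hq h =>
    hmT t (((Nat.prime_dvd_prime_iff_eq (hT q hq) (hmp t)).1 h) ▸ hq)
  -- the system
  have hRec : Rec (fun p q : Option T => nr (m p) (m q)) (fun p => lbl T (m p)) (c.dj 𝓛).s₀ := by
    intro p q hpq
    show nr (m q) (m p) = nr (m p) (m q) + lbl T (m p) none * lbl T (m q) none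
    rw [Q44.BM.nr_rec (hmp q) (hm2 q) (hmp p) (hm2 p) (hminj.ne hpq.symm), mul_comm]
    congr 2
    · exact (Q44.BN.jv_neg_one (hmp p) (hm2 p)).symm
    · exact (Q44.BN.jv_neg_one (hmp q) (hm2 q)).symm
  have hid := hID (Option T) c.V (Option T) (c.dj 𝓛) (hOMV T c 𝓛).1
    (fun p q : Option T => nr (m p) (m q)) (fun p => lbl T (m p)) hRec y
  have hcl : clL (fun p => lbl T (m p)) y = y := by
    refine Prod.ext rfl ?_
    funext t
    show ∑ p, lbl T (m p) t • y.2 p = y.2 t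
    rw [Finset.sum_eq_single t]
    · rw [hml, Pi.single_eq_same, one_smul]
    · intro p _ hp
      rw [hml, Pi.single_eq_of_ne hp.symm, zero_smul]
    · intro h
      exact absurd (mem_univ t) h
  rw [hcl] at hid
  rw [← hid]
  -- the tuple
  obtain ⟨z', hz'⟩ : ∃ z' : Fin (2 * c.g + 1) → ℕ, z' = fun i =>
      ∏ t : Option T, if (y.2 t).1 i = 0 then 1 else m t := ⟨_, rfl⟩
  have hzl : ∀ i, Cop T (z' i) ∧ lbl T (z' i) = fun o => (y.2 o).1 i := by
    intro i
    obtain ⟨h3, h4⟩ := lbl_prod hLBL hT h2 univ m (fun t _ => hcop t) (fun t => (y.2 t).1 i)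
    rw [hz']
    refine ⟨h3, ?_⟩
    rw [h4]
    funext o
    rw [Finset.sum_apply, Finset.sum_eq_single o]
    · rw [Pi.smul_apply, hml, Pi.single_eq_same, smul_eq_mul, mul_one]
    · intro t _ ht
      rw [Pi.smul_apply, hml, Pi.single_eq_of_ne ht.symm, smul_zero]
    · intro h
      exact absurd (mem_univ o) h
  have hpos : ∀ w : ℕ, Cop T w → 0 < w := by
    intro w h
    rcases Nat.eq_zero_or_pos w with h3 | h3
    · exact absurd (by rw [h3]; exact dvd_zero _) (h 2 h2)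
    · exact h3
  have hne : ∀ w : Fin (2 * c.g + 1) → ℕ, (∀ i, Cop T (w i)) → ∀ i, c.dz y.1 w i ≠ 0 := by
    intro w h i
    unfold Cr.dz
    exact mul_ne_zero (Uo_ne hT _) (by exact_mod_cast (hpos _ (h i)).ne')
  have hz0 := hne z fun i => (hz i).1
  have hz0' := hne z' fun i => (hzl i).1
  -- the primes of the system
  have hmain : ∀ p : Option T, (c.dj 𝓛).ω (y.2 p) (rowL (c.dj 𝓛) (fun p q => nr (m p) (m q))
      (fun p => lbl T (m p)) y p) = qp (m p) c.a (c.dz y.1 z') := by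
    intro p
    rw [hz']
    exact row_qp c hTAME hLBL hT h2 𝓛 m (fun p => ⟨hmp p, hmT p⟩) hminj y p
  rw [sum_congr rfl fun p _ => hmain p]
  -- the product formula
  have hpf := qv_qp hPF c.a (c.dz y.1 z') c.inj hz0' (T ∪ univ.image m) (fun p hp => ?_)
    (mem_union_left _ h2) (fun i p pp h => ?_) (fun i j hij p pp h => mem_union_left _
      (c.supp i j hij p pp h))
  · rw [sum_union, sum_image fun _ _ _ _ h => hminj h] at hpf
    · have e1 : qv (fun i => ((c.a i : ℤ) : ℝ)) (fun i => ((c.dz y.1 z' i : ℤ) : ℝ)) =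
          qv (fun i => ((c.a i : ℤ) : ℝ)) (fun i => ((c.dz y.1 z i : ℤ) : ℝ)) := by
        have hs : ∀ i, IsSquare (((c.dz y.1 z' i : ℤ) : ℝ) * ((c.dz y.1 z i : ℤ) : ℝ)) := by
          intro i
          have h3 : (((c.dz y.1 z' i : ℤ) : ℝ) * ((c.dz y.1 z i : ℤ) : ℝ)) =
              ((Uo (fun o => (y.1 o).1 i) : ℤ) : ℝ) ^ 2 * ((z' i : ℝ) * (z i : ℝ)) := by
            unfold Cr.dz
            push_cast
            ring
          rw [h3]
          refine (IsSquare.sq _).mul ?_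
          refine ⟨Real.sqrt ((z' i : ℝ) * (z i : ℝ)), ?_⟩
          rw [Real.mul_self_sqrt (by positivity)]
        have hR : ∀ w : Fin (2 * c.g + 1) → ℕ, (∀ i, c.dz y.1 w i ≠ 0) →
            ∀ i, ((c.dz y.1 w i : ℤ) : ℝ) ≠ 0 := fun w h i => by exact_mod_cast h i
        unfold qv
        congr 1
        · refine sum_congr rfl fun i _ => sum_congr rfl fun j _ => ?_
          rw [hv_cls (hR z hz0 i) (hR z' hz0' i) (hs i), hv_cls' (hR z hz0 j) (hR z' hz0' j) (hs j)]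
        · exact sum_congr rfl fun i _ => hv_cls (hR z hz0 i) (hR z' hz0' i) (hs i) _
      have e2 : ∀ p ∈ T, qp p c.a (c.dz y.1 z') = qp p c.a (c.dz y.1 z) := by
        intro p hp
        haveI : Fact p.Prime := ⟨hT p hp⟩
        have hs : ∀ i, IsSquare (((c.dz y.1 z' i : ℤ) : ℚ_[p]) * ((c.dz y.1 z i : ℤ) : ℚ_[p])) := by
          intro i
          have h3 : (((c.dz y.1 z' i : ℤ) : ℚ_[p]) * ((c.dz y.1 z i : ℤ) : ℚ_[p])) =
              ((Uo (fun o => (y.1 o).1 i) : ℤ) : ℚ_[p]) ^ 2 * ((z' i : ℚ_[p]) * (z i : ℚ_[p])) := by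
            unfold Cr.dz
            push_cast
            ring
          rw [h3]
          refine (IsSquare.sq _).mul ?_
          exact L.2.2.1 _ _ (hzl i).1 (hz i).1 (by rw [(hzl i).2, (hz i).2]) p hp
        have hR : ∀ w : Fin (2 * c.g + 1) → ℕ, (∀ i, c.dz y.1 w i ≠ 0) →
            ∀ i, ((c.dz y.1 w i : ℤ) : ℚ_[p]) ≠ 0 := fun w h i => by exact_mod_cast h i
        unfold qp
        congr 1
        · refine sum_congr rfl fun i _ => sum_congr rfl fun j _ => ?_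
          rw [hp_eq, hp_eq, hv_cls (hR z hz0 i) (hR z' hz0' i) (hs i),
            hv_cls' (hR z hz0 j) (hR z' hz0' j) (hs j)]
        · refine sum_congr rfl fun i _ => ?_
          rw [hp_eq, hp_eq, hv_cls (hR z hz0 i) (hR z' hz0' i) (hs i)]
      rw [e1, sum_congr rfl e2] at hpf
      have : ∀ x y z : ZMod 2, x + (y + z) = 0 → z = x + y := by decide
      exact this _ _ _ hpf
    · rw [Finset.disjoint_right]
      intro p hp hpT
      obtain ⟨t, _, rfl⟩ := mem_image.1 hp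
      exact hmT t hpT
  · rcases mem_union.1 hp with h | h
    · exact hT p h
    · obtain ⟨t, _, rfl⟩ := mem_image.1 h
      exact hmp t
  · by_cases hpT : p ∈ T
    · exact mem_union_left _ hpT
    · refine mem_union_right _ ?_
      have hpi := Nat.prime_iff_prime_int.1 pp
      unfold Cr.dz at h
      rcases hpi.dvd_or_dvd h with h | h
      · exact absurd h (Uo_nd pp hT hpT _)
      · have h3 : p ∣ z' i := Int.natCast_dvd_natCast.1 h
        rw [hz'] at h3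
        obtain ⟨t, _, h4⟩ := (Nat.Prime.prime pp).exists_mem_finset_dvd h3
        split_ifs at h4 with h5
        · exact absurd (Nat.dvd_one.1 h4) pp.one_lt.ne'
        · rw [(Nat.prime_dvd_prime_iff_eq pp (hmp t)).1 h4]
          exact mem_image_of_mem _ (mem_univ t)

end Pool.Agent.Q285.JQ
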