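import Pool.Agent.Q285.JQ.Ax

/-!
# Project JQ: the local condition at a prime of the twist is the row of the system
-/

set_option autoImplicit false
set_option linter.unusedVariables false

namespace Pool.Agent.Q285.JQ

open Finset Module Q44.JQ
open Pool.Agent.Y703.CQ (nr)
open Pool.Agent.TH344.JG (LocJ SelJ PR df)
open Pool.Agent.Y723.PT (tw dc LG locJ_iff isot)
open Pool.Agent.W313.BMX (Splits)
open Pool.Agent.Y676.HS (hs bl_padic)
open Q44.BN (jv)
open Q44.TI (ch ch_mul ch_zero)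
open scoped Classical

/-- the points of order two -/
theorem LG_tor {K : Type} [Field K] {g : ℕ} (hg : 1 ≤ g) {r : Fin (2 * g + 1) → K}
    (hr : Function.Injective r) (m : Fin (2 * g + 1)) :
    LG r (fun i => if i = m then ∏ j ∈ univ.erase m, (r m - r j) else r m - r i) := by
  have hmon : (∏ i ∈ univ.erase m, (Polynomial.X - Polynomial.C (r i))).Monic :=
    Polynomial.monic_prod_of_monic _ _ fun i _ => Polynomial.monic_X_sub_C _
  have hnd : (∏ i ∈ univ.erase m, (Polynomial.X - Polynomial.C (r i))).natDegree = 2 * g := by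
    rw [Polynomial.natDegree_prod_of_monic _ _ fun i _ => Polynomial.monic_X_sub_C _]
    simp only [Polynomial.natDegree_X_sub_C, Finset.sum_const, smul_eq_mul, mul_one]
    rw [Finset.card_erase_of_mem (Finset.mem_univ m), Finset.card_univ, Fintype.card_fin]
    omega
  have hlt : (Polynomial.X - Polynomial.C (r m)).degree <
      (∏ i ∈ univ.erase m, (Polynomial.X - Polynomial.C (r i))).degree := by
    rw [Polynomial.degree_X_sub_C, Polynomial.degree_eq_natDegree hmon.ne_zero, hnd]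
    exact_mod_cast (by omega : 1 < 2 * g)
  have hud : ((∏ i ∈ univ.erase m, (Polynomial.X - Polynomial.C (r i))) -
      (Polynomial.X - Polynomial.C (r m))).natDegree = 2 * g := by
    rw [Polynomial.natDegree_eq_of_degree_eq (Polynomial.degree_sub_eq_left_of_degree_lt hlt), hnd]
  refine ⟨(∏ i ∈ univ.erase m, (Polynomial.X - Polynomial.C (r i))) -
      (Polynomial.X - Polynomial.C (r m)), Polynomial.X - Polynomial.C (r m),
    hmon.sub_of_left hlt, ⟨Polynomial.X - Polynomial.C (r m), ?_⟩, fun i => ?_⟩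
  · rw [← Finset.mul_prod_erase Finset.univ _ (Finset.mem_univ m)]
    ring
  · have hev : ((∏ i ∈ univ.erase m, (Polynomial.X - Polynomial.C (r i))) -
        (Polynomial.X - Polynomial.C (r m))).eval (r i) =
        if i = m then ∏ j ∈ univ.erase m, (r m - r j) else r m - r i := by
      rw [Polynomial.eval_sub, Polynomial.eval_prod, Polynomial.eval_sub, Polynomial.eval_X,
        Polynomial.eval_C]
      by_cases h : i = m
      · subst h
        rw [if_pos rfl, sub_self, sub_zero]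
        exact Finset.prod_congr rfl fun j _ => by
          rw [Polynomial.eval_sub, Polynomial.eval_X, Polynomial.eval_C]
      · rw [if_neg h, Finset.prod_eq_zero (Finset.mem_erase.2 ⟨h, Finset.mem_univ i⟩)]
        · ring
        · rw [Polynomial.eval_sub, Polynomial.eval_X, Polynomial.eval_C, sub_self]
    rw [hud, hev, pow_mul, neg_one_sq, one_pow, one_mul]
    refine ⟨?_, ⟨_, rfl⟩⟩
    split_ifs with h
    · rw [Finset.prod_ne_zero_iff]
      intro j hj
      rw [sub_ne_zero]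
      exact fun h => (Finset.mem_erase.1 hj).1 (hr h).symm
    · rw [sub_ne_zero]
      exact fun h' => h (hr h').symm

theorem sum_er {g : ℕ} (f : Fin (2 * g + 1) → ZMod 2) (hf : ∑ i, f i = 0) (j : Fin (2 * g + 1)) :
    ∑ i ∈ univ.erase j, (f j + f i) = f j := by
  have h1 : ∑ i, (f j + f i) = ∑ i ∈ univ.erase j, (f j + f i) := by
    rw [← add_sum_erase univ _ (mem_univ j)]
    have : ∀ x : ZMod 2, x + x = 0 := by decide
    rw [this, zero_add]
  rw [← h1, sum_add_distrib, hf, add_zero, sum_const, card_univ, Fintype.card_fin, nsmul_eq_mul]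
  push_cast
  have : (2 : ZMod 2) = 0 := rfl
  rw [this, zero_mul, zero_add, one_mul]

/-- **job ROW** -/
theorem t_ROW (hLBL : S_LBL) (hOMV : S_OMV) (hTAME : S_TAME) (hHVB : S_HVB) : S_ROW := by
  intro T hT h2 c 𝓛 S hS e p hloc
  have pp := (hS p p.2).1
  have hpT := (hS p p.2).2
  haveI hF : Fact (p : ℕ).Prime := ⟨pp⟩
  have hp2 : (p : ℕ) ≠ 2 := fun h => hpT (h ▸ h2)
  have hL := @hloc hF
  rw [locJ_iff] at hL
  have hodd : Odd (2 * c.g + 1) := ⟨c.g, rfl⟩
  -- the product of the other primes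
  obtain ⟨n', hn'⟩ : ∃ n' : ℤ, n' = ∏ q ∈ (univ : Finset S).erase p, ((q : ℕ) : ℤ) := ⟨_, rfl⟩
  obtain ⟨n, hn⟩ : ∃ n : ℤ, n = ((∏ q ∈ S, q : ℕ) : ℤ) := ⟨_, rfl⟩
  rw [← hn] at hL
  have hpi : Prime ((p : ℕ) : ℤ) := Nat.prime_iff_prime_int.1 pp
  have hqnd : ∀ q ∈ (univ : Finset S).erase p, ¬ ((p : ℕ) : ℤ) ∣ ((q : ℕ) : ℤ) := by
    intro q hq h
    have h1 := (Nat.prime_dvd_prime_iff_eq pp (hS q q.2).1).1 (Int.natCast_dvd_natCast.1 h)
    exact (mem_erase.1 hq).1 (Subtype.ext h1.symm)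
  have hn'nd : ¬ ((p : ℕ) : ℤ) ∣ n' := by
    rw [hn']
    exact nd_prod pp _ _ hqnd
  have hnn : n = (p : ℕ) * n' := by
    rw [hn, hn', mul_prod_erase univ (fun q : S => ((q : ℕ) : ℤ)) (mem_univ p), ← prod_coe_sort S
      (fun q => q)]
    push_cast
    rfl
  have hn0 : n ≠ 0 := by
    rw [hnn]
    exact mul_ne_zero hpi.ne_zero fun h => hn'nd (by rw [h]; exact dvd_zero _)
  -- the parts prime to `p`
  obtain ⟨u, hu⟩ : ∃ u : Fin (2 * c.g + 1) → ℤ, u = fun i => Uo (fun o => (e.1 o).1 i) *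
      ∏ q ∈ (univ : Finset S).erase p, (if (e.2 q).1 i = 0 then 1 else ((q : ℕ) : ℤ)) := ⟨_, rfl⟩
  have hu2nd : ∀ i, ¬ ((p : ℕ) : ℤ) ∣
      ∏ q ∈ (univ : Finset S).erase p, (if (e.2 q).1 i = 0 then 1 else ((q : ℕ) : ℤ)) :=
    fun i => nd_prod pp _ _ fun q hq => nd_bit pp _ (hqnd q hq)
  have hund : ∀ i, ¬ ((p : ℕ) : ℤ) ∣ u i := by
    intro i
    rw [hu]
    intro h
    rcases hpi.dvd_or_dvd h with h | h
    · exact Uo_nd pp hT hpT _ h
    · exact hu2nd i h
  have hchu : ∀ i, ch ((u i : ℤ) : ZMod (p : ℕ)) = ∑ o, (e.1 o).1 i * lbl T p o +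
      ∑ q ∈ (univ : Finset S).erase p, (e.2 q).1 i * nr p q := by
    intro i
    rw [hu]
    rw [ch_mul' pp (Uo_nd pp hT hpT _) (hu2nd i), ch_Uo pp hT hpT,
      ch_prod pp _ _ fun q hq => nd_bit pp _ (hqnd q hq)]
    congr 1
    · exact sum_congr rfl fun o _ => by rw [lbl_ch pp hT hpT]
    · refine sum_congr rfl fun q _ => ?_
      rw [ch_bit, Q44.TI.nr_ch, Int.cast_natCast]
  obtain ⟨D, hDd⟩ : ∃ D : Fin (2 * c.g + 1) → ℤ, D = c.dz e.1 (c.zx e.2) := ⟨_, rfl⟩
  rw [← hDd] at hL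
  have hD : ∀ i, D i = ((p : ℕ) : ℤ) ^ ((e.2 p).1 i).val * u i := by
    intro i
    rw [hu, hDd]
    unfold Cr.dz Cr.zx
    rw [← bit_pow]
    push_cast
    rw [← mul_prod_erase univ _ (mem_univ p)]
    ring
  have hD0 : ∀ i, D i ≠ 0 := by
    intro i
    rw [hD]
    exact mul_ne_zero (pow_ne_zero _ hpi.ne_zero) fun h => hund i (by rw [h]; exact dvd_zero _)
  have hsumu : ∑ i, ch ((u i : ℤ) : ZMod (p : ℕ)) = 0 := by
    rw [sum_congr rfl fun i _ => hchu i, sum_add_distrib, sum_comm,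
      sum_comm (s := univ) (t := univ.erase p)]
    rw [sum_eq_zero, sum_eq_zero, add_zero]
    · intro q _
      rw [← sum_mul, (e.2 q).2, zero_mul]
    · intro o _
      rw [← sum_mul, (e.1 o).2, zero_mul]
  -- the symbols
  obtain ⟨A, hA⟩ : ∃ A : Fin (2 * c.g + 1) → ℤ, A = tw n c.a := ⟨_, rfl⟩
  rw [← hA] at hL
  have hAinj : Function.Injective A := by
    rw [hA]
    exact Pool.Agent.Y723.PT.tw_inj hn0 c.inj
  have hsym : ∀ i j l, j ≠ l → Q44.JQ.hp (p : ℕ) (D i) (A j - A l) =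
      (e.2 p).1 i * (ch ((-1 : ℤ) : ZMod (p : ℕ)) + ch ((n' : ℤ) : ZMod (p : ℕ)) +
        ch ((c.a j - c.a l : ℤ) : ZMod (p : ℕ))) + ch ((u i : ℤ) : ZMod (p : ℕ)) := by
    intro i j l hjl
    have h3 : A j - A l = ((p : ℕ) : ℤ) ^ 1 * (n' * (c.a j - c.a l)) := by
      rw [hA]
      unfold tw
      rw [hnn]
      ring
    have h4 : ¬ ((p : ℕ) : ℤ) ∣ n' * (c.a j - c.a l) := by
      intro h
      rcases hpi.dvd_or_dvd h with h | h
      · exact hn'nd h
      · exact df_nd c pp hpT hjl h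
    rw [hD, h3, hTAME p pp hp2 _ 1 (u i) _ (hund i) h4, val_cast, ch_mul' pp hn'nd (df_nd c pp hpT hjl)]
    push_cast
    ring
  refine Subtype.ext (funext fun j => ?_)
  rw [row_comp]
  -- the pairing with the point of order two
  have hinjK : Function.Injective fun i => ((A i : ℤ) : ℚ_[(p : ℕ)]) := by
    intro i i' h
    have h' : ((A i : ℤ) : ℚ_[(p : ℕ)]) = ((A i' : ℤ) : ℚ_[(p : ℕ)]) := h
    exact hAinj (by exact_mod_cast h')
  have hB := bil_p hHVB (p : ℕ)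
  have hdne : ∀ i l, i ≠ l → ((A i : ℤ) : ℚ_[(p : ℕ)]) - ((A l : ℤ) : ℚ_[(p : ℕ)]) ≠ 0 := by
    intro i l h
    rw [sub_ne_zero]
    exact fun h' => h (hinjK h')
  have hDK : ∀ i, ((D i : ℤ) : ℚ_[(p : ℕ)]) ≠ 0 := fun i => by exact_mod_cast hD0 i
  have hiso := sum_hv _ _ _ (isot (bl_padic (p : ℕ)) hodd hinjK hDK (fun i => ?_) hL (LG_tor c.hg hinjK j))
  · rw [← add_sum_erase univ _ (mem_univ j), if_pos rfl, hB.prod _ _ (fun l hl =>
      hdne j l (mem_erase.1 hl).1.symm) (hDK j), ← sum_add_distrib] at hiso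
    have hst : ∀ i ∈ univ.erase j, hv ((D j : ℤ) : ℚ_[(p : ℕ)])
        (((A j : ℤ) : ℚ_[(p : ℕ)]) - ((A i : ℤ) : ℚ_[(p : ℕ)])) +
        hv ((D i : ℤ) : ℚ_[(p : ℕ)]) (if i = j then ∏ l ∈ univ.erase j,
          (((A j : ℤ) : ℚ_[(p : ℕ)]) - ((A l : ℤ) : ℚ_[(p : ℕ)]))
          else ((A j : ℤ) : ℚ_[(p : ℕ)]) - ((A i : ℤ) : ℚ_[(p : ℕ)])) =
        (ch ((-1 : ℤ) : ZMod (p : ℕ)) + ch ((n' : ℤ) : ZMod (p : ℕ))) *
          ((e.2 p).1 j + (e.2 p).1 i) +
        ch ((c.a j - c.a i : ℤ) : ZMod (p : ℕ)) * ((e.2 p).1 j + (e.2 p).1 i) +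
        (ch ((u j : ℤ) : ZMod (p : ℕ)) + ch ((u i : ℤ) : ZMod (p : ℕ))) := by
      intro i hi
      have hij := (mem_erase.1 hi).1
      rw [if_neg hij, ← Int.cast_sub, ← hp_eq, ← hp_eq, hsym j j i hij.symm, hsym i j i hij.symm]
      ring
    rw [sum_congr rfl hst, sum_add_distrib, sum_add_distrib, ← mul_sum, sum_er _ (e.2 p).2 j,
      sum_er _ hsumu j, hchu j] at hiso
    rw [tf_ch c hLBL hT h2 pp hpT]
    have hN : ch ((n' : ℤ) : ZMod (p : ℕ)) = ∑ q ∈ (univ : Finset S).erase p, nr p q := by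
      rw [hn', ch_prod pp _ _ hqnd]
      exact sum_congr rfl fun q _ => by rw [Q44.TI.nr_ch, Int.cast_natCast]
    rw [hN] at hiso
    have e1 : ∑ q : S, nr p q * ((e.2 q).1 j + (e.2 p).1 j) =
        ∑ q ∈ (univ : Finset S).erase p, (e.2 q).1 j * nr p q +
        (∑ q ∈ (univ : Finset S).erase p, nr p q) * (e.2 p).1 j := by
      rw [← add_sum_erase univ _ (mem_univ p), sum_mul, ← sum_add_distrib]
      have : ∀ x : ZMod 2, x + x = 0 := by decide
      rw [this, mul_zero, zero_add]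
      exact sum_congr rfl fun q _ => by ring
    have e2 : ∑ t, lbl T p t * (e.1 t).1 j = ∑ t, (e.1 t).1 j * lbl T p t :=
      sum_congr rfl fun t _ => mul_comm _ _
    rw [e1, e2]
    show _ = (0 : ZMod 2)
    rw [← hiso]
    ring
  · show (if i = j then _ else _) ≠ (0 : ℚ_[(p : ℕ)])
    split_ifs with h
    · exact prod_ne_zero_iff.2 fun l hl => hdne j l (mem_erase.1 hl).1.symm
    · exact hdne j i fun h' => h h'.symm

end Pool.Agent.Q285.JQ
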