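import Pool.Agent.Q285.JQ.SEU
import Pool.Agent.Q121.JQ.DEC

/-!
# Project JQ (helper44), job SELY: the solutions are elements of the Selmer group
-/

set_option autoImplicit false
set_option linter.unusedVariables false

namespace Pool.Agent.Q285.JQ

open Finset Module Q44.JQ
open Pool.Agent.Y703.CQ (nr)
open Pool.Agent.TH344.JG (LocJ SelJ PR df)
open Pool.Agent.Y723.PT (tw dc LG isSquare_cancel locJ_iff tw_inj df_tw)
open Q44.TI (ch ch_mul ch_zero padic_sq)
open scoped Classical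

section sel

variable {T : Finset ℕ} (c : Cr T)

/-- the tuple of a solution -/
noncomputable def DE {S : Finset ℕ} (e : (Option T → c.V) × (S → c.V)) : Fin (2 * c.g + 1) → ℤ :=
  c.dz e.1 (c.zx e.2)

theorem zx_ne {S : Finset ℕ} (hS : ∀ p ∈ S, p.Prime) (x : S → c.V) (i : Fin (2 * c.g + 1)) :
    c.zx x i ≠ 0 := by
  unfold Cr.zx
  refine prod_ne_zero_iff.2 fun p _ => ?_
  split_ifs
  · exact one_ne_zero
  · exact (hS p p.2).ne_zero

theorem DE_ne {S : Finset ℕ} (hT : ∀ p ∈ T, p.Prime) (hS : ∀ p ∈ S, p.Prime)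
    (e : (Option T → c.V) × (S → c.V)) (i : Fin (2 * c.g + 1)) : DE c e i ≠ 0 := by
  unfold DE Cr.dz
  exact mul_ne_zero (Uo_ne hT _) (by exact_mod_cast zx_ne c hS e.2 i)

theorem DE_add {S : Finset ℕ} (e e' : (Option T → c.V) × (S → c.V)) (i : Fin (2 * c.g + 1)) :
    IsSquare (DE c e i * DE c e' i * DE c (e + e') i) := by
  have h1 := Pool.Agent.Q121.JQ.Uo_sq (fun o => (e.1 o).1 i) (fun o => (e'.1 o).1 i)
  have h2 : IsSquare (((c.zx e.2 i : ℕ) : ℤ) * ((c.zx e'.2 i : ℕ) : ℤ) *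
      ((c.zx (e.2 + e'.2) i : ℕ) : ℤ)) := by
    unfold Cr.zx
    push_cast
    rw [← prod_mul_distrib, ← prod_mul_distrib]
    refine Finset.isSquare_prod _ fun q _ => ?_
    have e0 : ((e.2 + e'.2) q).1 i = (e.2 q).1 i + (e'.2 q).1 i := rfl
    rw [e0]
    rcases two_cases ((e.2 q).1 i) with h | h <;> rcases two_cases ((e'.2 q).1 i) with h' | h' <;>
      rw [h, h']
    · rw [add_zero, if_pos rfl]
      exact ⟨1, by norm_num⟩
    · rw [zero_add, if_pos rfl, if_neg one_ne_zero]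
      exact ⟨q, by ring⟩
    · rw [add_zero, if_pos rfl, if_neg one_ne_zero]
      exact ⟨q, by ring⟩
    · have h11 : (1 + 1 : ZMod 2) = 0 := by decide
      rw [h11, if_pos rfl, if_neg one_ne_zero]
      exact ⟨q, by ring⟩
  have h3 := h1.mul h2
  have e0 : (fun o => ((e + e').1 o).1 i) = ((fun o => (e.1 o).1 i) + fun o => (e'.1 o).1 i) := rfl
  have e1 : DE c e i * DE c e' i * DE c (e + e') i =
      Uo (fun o => (e.1 o).1 i) * Uo (fun o => (e'.1 o).1 i) *
      Uo ((fun o => (e.1 o).1 i) + fun o => (e'.1 o).1 i) * (((c.zx e.2 i : ℕ) : ℤ) *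
      ((c.zx e'.2 i : ℕ) : ℤ) * ((c.zx (e.2 + e'.2) i : ℕ) : ℤ)) := by
    unfold DE Cr.dz
    rw [e0]
    have e2 : (e + e').2 = e.2 + e'.2 := rfl
    rw [e2]
    ring
  rw [e1]
  exact h3

/-- the local images are groups -/
theorem loc_add {S : Finset ℕ} (hT : ∀ p ∈ T, p.Prime) (hS : ∀ p ∈ S, p.Prime) {K : Type} [Field K]
    [CharZero K] {a : Fin (2 * c.g + 1) → ℤ} (ha : Function.Injective a)
    (e e' : (Option T → c.V) × (S → c.V)) (h : LocJ K a (DE c e)) (h' : LocJ K a (DE c e')) :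
    LocJ K a (DE c (e + e')) := by
  rw [locJ_iff] at h h' ⊢
  have h3 := LG.mul ⟨c.g, rfl⟩ (Pool.Agent.Y723.PT.inj_cast ha) h h'
  refine h3.congr (fun i => ?_) fun i => ?_
  · exact mul_ne_zero (Int.cast_ne_zero.2 (DE_ne c hT hS e i)) (Int.cast_ne_zero.2 (DE_ne c hT hS e' i))
  · have h5 := (DE_add c e e' i).map (Int.castRingHom K)
    simpa using h5

/-- the symbol of the tuple of a solution -/
theorem ch_DE {S : Finset ℕ} (hT : ∀ p ∈ T, p.Prime) (hS : ∀ p ∈ S, p.Prime) {p : ℕ}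
    (pp : p.Prime) (hpT : p ∉ T) (e : (Option T → c.V) × (S → c.V)) (i : Fin (2 * c.g + 1))
    (hx : ∀ q : S, (q : ℕ) = p → (e.2 q).1 i = 0) :
    ¬ (p : ℤ) ∣ DE c e i ∧ ch ((DE c e i : ℤ) : ZMod p) = ∑ o, (e.1 o).1 i * lbl T p o +
      ∑ q : S, (e.2 q).1 i * nr p q := by
  have h1 : ∀ q ∈ (univ : Finset S), ¬ (p : ℤ) ∣ (if (e.2 q).1 i = 0 then 1 else ((q : ℕ) : ℤ)) := by
    intro q _
    by_cases hq : (q : ℕ) = p
    · rw [if_pos (hx q hq)]
      exact nd_one pp
    · refine nd_bit pp _ fun hd => hq ?_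
      exact ((Nat.prime_dvd_prime_iff_eq pp (hS q q.2)).1 (Int.natCast_dvd_natCast.1 hd)).symm
  have h2 : (((c.zx e.2 i : ℕ) : ℤ)) = ∏ q : S, (if (e.2 q).1 i = 0 then 1 else ((q : ℕ) : ℤ)) := by
    unfold Cr.zx
    push_cast
    rfl
  have h3 : ¬ (p : ℤ) ∣ ((c.zx e.2 i : ℕ) : ℤ) := by
    rw [h2]
    exact nd_prod pp _ _ h1
  have h4 := Uo_nd pp hT hpT fun o => (e.1 o).1 i
  constructor
  · unfold DE Cr.dz
    intro hd
    rcases (Nat.prime_iff_prime_int.1 pp).dvd_or_dvd hd with h | h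
    · exact h4 h
    · exact h3 h
  · unfold DE Cr.dz
    rw [ch_mul' pp h4 h3, ch_Uo pp hT hpT, h2, ch_prod pp _ _ h1]
    congr 1
    · exact sum_congr rfl fun o _ => by rw [lbl_ch pp hT hpT]
    · refine sum_congr rfl fun q _ => ?_
      rw [ch_bit, Q44.TI.nr_ch, Int.cast_natCast]

theorem DE_sf {S : Finset ℕ} (hT : ∀ p ∈ T, p.Prime) (hS : ∀ p ∈ S, p.Prime ∧ p ∉ T)
    (e : (Option T → c.V) × (S → c.V)) (i : Fin (2 * c.g + 1)) : Squarefree (DE c e i) := by
  unfold DE Cr.dz
  refine (squarefree_mul_iff).2 ⟨?_, Pool.Agent.Q24.JQ.Uo_sqf hT _, ?_⟩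
  · refine IsCoprime.isRelPrime (isCoprime_of_prime_dvd ?_ ?_)
    · rintro ⟨h, -⟩
      exact Uo_ne hT _ h
    · intro r hr h1 h2
      have hrp : r.natAbs.Prime := Int.prime_iff_natAbs_prime.1 hr
      have h1' : ((r.natAbs : ℕ) : ℤ) ∣ Uo fun o => (e.1 o).1 i := Int.natAbs_dvd.2 h1
      have h2' : ((r.natAbs : ℕ) : ℤ) ∣ ((c.zx e.2 i : ℕ) : ℤ) := Int.natAbs_dvd.2 h2
      have h3 := Pool.Agent.Q24.JQ.Uo_supp hT _ _ hrp h1'
      rw [Int.natCast_dvd_natCast] at h2'
      unfold Cr.zx at h2'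
      obtain ⟨q, _, hq⟩ := (Prime.dvd_finsetProd_iff hrp.prime _).1 h2'
      split_ifs at hq with h4
      · exact hrp.one_lt.ne' (Nat.dvd_one.1 hq)
      · rw [(Nat.prime_dvd_prime_iff_eq hrp (hS q q.2).1).1 hq] at h3
        exact (hS q q.2).2 h3
  · unfold Cr.zx
    push_cast
    refine Finset.squarefree_prod_of_pairwise_isCoprime ?_ ?_
    · intro q _ q' _ hqq
      show IsRelPrime (if (e.2 q).1 i = 0 then (1 : ℤ) else ((q : ℕ) : ℤ))
        (if (e.2 q').1 i = 0 then (1 : ℤ) else ((q' : ℕ) : ℤ))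
      refine IsCoprime.isRelPrime ?_
      split_ifs
      · exact isCoprime_one_left
      · exact isCoprime_one_left
      · exact isCoprime_one_right
      · rw [Nat.isCoprime_iff_coprime]
        exact (Nat.coprime_primes (hS q q.2).1 (hS q' q'.2).1).2 fun h => hqq (Subtype.ext h)
    · intro q _
      split_ifs
      · exact squarefree_one
      · exact (Nat.prime_iff_prime_int.1 (hS q q.2).1).squarefree

/-- different solutions have different tuples -/
theorem DE_inj {S : Finset ℕ} (hT : ∀ p ∈ T, p.Prime) (hS : ∀ p ∈ S, p.Prime ∧ p ∉ T) :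
    Function.Injective (DE c (S := S)) := by
  intro e e' h
  have h1 : ∀ i, (fun o => (e.1 o).1 i) = (fun o => (e'.1 o).1 i) ∧
      ∀ q : S, (e.2 q).1 i = (e'.2 q).1 i := by
    intro i
    have hi := congrFun h i
    constructor
    · have hz : ∀ x : S → c.V, (ct ((c.zx x i : ℕ) : ℤ) : Option T → ZMod 2) = 0 := by
        intro x
        funext o
        cases o with
        | none =>
          simp only [ct, Option.elim, Pi.zero_apply]
          rw [if_neg (by omega)]
        | some t =>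
          simp only [ct, Option.elim, Pi.zero_apply, padicValInt, Int.natAbs_natCast]
          rw [padicValNat.eq_zero_of_not_dvd, Nat.cast_zero]
          intro hd
          unfold Cr.zx at hd
          obtain ⟨q, _, hq⟩ := (Prime.dvd_finsetProd_iff (hT t t.2).prime _).1 hd
          split_ifs at hq with h4
          · exact (hT t t.2).one_lt.ne' (Nat.dvd_one.1 hq)
          · have := (Nat.prime_dvd_prime_iff_eq (hT t t.2) (hS q q.2).1).1 hq
            exact (hS q q.2).2 (this ▸ t.2)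
      have h2 : (ct (DE c e i) : Option T → ZMod 2) = ct (DE c e' i) := by rw [hi]
      unfold DE Cr.dz at h2
      have hne : ∀ x : S → c.V, ((c.zx x i : ℕ) : ℤ) ≠ 0 := fun x => by
        exact_mod_cast zx_ne c (fun p hp => (hS p hp).1) x i
      rw [Pool.Agent.Q24.JQ.ct_mul hT (Uo_ne hT _) (hne _),
        Pool.Agent.Q24.JQ.ct_mul hT (Uo_ne hT _) (hne _), hz, hz, add_zero, add_zero,
        Pool.Agent.Q24.JQ.ct_Uo hT, Pool.Agent.Q24.JQ.ct_Uo hT] at h2
      exact h2
    · intro q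
      have pp := (hS q q.2).1
      have key : ∀ x : (Option T → c.V) × (S → c.V), ((q : ℕ) : ℤ) ∣ DE c x i ↔ (x.2 q).1 i = 1 := by
        intro x
        constructor
        · intro hd
          by_contra hne
          have h0 := (two_cases ((x.2 q).1 i)).resolve_right hne
          refine (ch_DE c hT (fun p hp => (hS p hp).1) pp (hS q q.2).2 x i ?_).1 hd
          intro q' hq'
          rw [Subtype.ext hq']
          exact h0
        · intro h1
          unfold DE Cr.dz Cr.zx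
          push_cast
          refine Dvd.dvd.mul_left ?_ _
          have h2 := Finset.dvd_prod_of_mem (fun q : S => (if (x.2 q).1 i = 0 then (1 : ℤ) else ((q : ℕ) : ℤ)))
            (mem_univ q)
          have h3 : (if (x.2 q).1 i = 0 then (1 : ℤ) else ((q : ℕ) : ℤ)) = ((q : ℕ) : ℤ) :=
            if_neg (by rw [h1]; exact one_ne_zero)
          rwa [h3] at h2
      have h3 := key e
      have h4 := key e'
      rw [hi, h4] at h3
      rcases two_cases ((e.2 q).1 i) with h5 | h5 <;> rcases two_cases ((e'.2 q).1 i) with h6 | h6 <;>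
        rw [h5, h6] at h3 ⊢
      · exact h3.1 rfl
      · exact (h3.2 rfl).symm
  refine Prod.ext (funext fun o => Subtype.ext (funext fun i => ?_))
    (funext fun q => Subtype.ext (funext fun i => ?_))
  · exact congrFun (h1 i).1 o
  · exact (h1 i).2 q

end sel

theorem add_self3 {M : Type} [AddCommGroup M] [Module (ZMod 2) M] (x : M) : x + x = 0 := by
  have h : ((1 : ZMod 2) + 1) • x = 0 := by
    have : (1 : ZMod 2) + 1 = 0 := by decide
    rw [this, zero_smul]
  rwa [add_smul, one_smul] at h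

theorem t_SELY (hLSZ : S_LSZ) (hLOCI : S_LOCI) (hLCL : S_LCL) (hROW : S_ROW) (hTAME : S_TAME)
    (hLBL : S_LBL) : S_SELY := by
  intro T hT h2 c hg ρ 𝓛 h𝓛 S hS hρ hfin
  have hLSQ := t_LSQ hLBL
  obtain ⟨l1, -, -, -, -, -, l7, l8⟩ := hLBL T hT h2
  have hSp : ∀ p ∈ S, p.Prime := fun p hp => (hS p hp).1
  have hcop1 : Cop T 1 := fun p hp h => (hT p hp).one_lt.ne' (Nat.dvd_one.1 h)
  have hlbl1 : lbl T 1 = 0 := by
    have h := l1 1 1 hcop1 hcop1
    rw [one_mul] at h
    exact left_eq_add.1 h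
  have hcopm : ∀ n n' : ℕ, Cop T n → Cop T n' → Cop T (n * n') := fun n n' h h' p hp hd =>
    ((hT p hp).dvd_mul.1 hd).elim (h p hp) (h' p hp)
  have hprod : ∀ (ι : Type) (A : Finset ι) (f : ι → ℕ), (∀ a ∈ A, Cop T (f a)) →
      Cop T (∏ a ∈ A, f a) ∧ lbl T (∏ a ∈ A, f a) = ∑ a ∈ A, lbl T (f a) := by
    intro ι A f
    induction A using Finset.induction_on with
    | empty =>
      intro _
      rw [prod_empty, sum_empty]
      exact ⟨hcop1, hlbl1⟩
    | insert a A ha ih =>
      intro hf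
      obtain ⟨i1, i2⟩ := ih fun b hb => hf b (mem_insert_of_mem hb)
      rw [prod_insert ha, sum_insert ha]
      exact ⟨hcopm _ _ (hf a (mem_insert_self _ _)) i1, by rw [l1 _ _ (hf a (mem_insert_self _ _)) i1, i2]⟩
  have hcopS : ∀ p ∈ S, Cop T p := fun p hp t ht hd => by
    rw [Nat.prime_dvd_prime_iff_eq (hT t ht) (hS p hp).1] at hd
    exact (hS p hp).2 (hd ▸ ht)
  obtain ⟨m1, m2⟩ := hprod ℕ S (fun p => p) hcopS
  obtain ⟨n, hn⟩ : ∃ n : ℕ, n = ∏ q ∈ S, q := ⟨_, rfl⟩
  have hn0 : n ≠ 0 := by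
    rw [hn]
    exact prod_ne_zero_iff.2 fun q hq => (hS q hq).1.ne_zero
  have hai : Function.Injective (tw (n : ℤ) c.a) := tw_inj (by exact_mod_cast hn0) c.inj
  have hsub : ∀ e ∈ Sel (c.dj 𝓛) (fun p q : S => nr p q) (fun p : S => lbl T p),
      DE c e ∈ SelJ (tw ((∏ q ∈ S, q : ℕ) : ℤ) c.a) := by
    intro e he
    obtain ⟨he1, he2⟩ := he
    have he1' : clL (fun p : S => lbl T p) e ∈ 𝓛 := he1
    have hrow : rowL (c.dj 𝓛) (fun p q : S => nr p q) (fun p : S => lbl T p) e = 0 :=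
      LinearMap.mem_ker.1 he2
    have hz : ∀ i, Cop T (c.zx e.2 i) ∧ lbl T (c.zx e.2 i) =
        fun o => ((clL (fun p : S => lbl T p) e).2 o).1 i := by
      intro i
      have hf : ∀ p ∈ (univ : Finset S), Cop T (if (e.2 p).1 i = 0 then 1 else (p : ℕ)) := by
        intro p _
        split_ifs
        · exact hcop1
        · exact hcopS p p.2
      obtain ⟨i1, i2⟩ := hprod S univ (fun p => if (e.2 p).1 i = 0 then 1 else (p : ℕ)) hf
      refine ⟨i1, ?_⟩
      unfold Cr.zx
      rw [i2]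
      funext o
      rw [Finset.sum_apply]
      have e1 : ((clL (fun p : S => lbl T p) e).2 o).1 i = ∑ p : S, lbl T p o * (e.2 p).1 i := by
        show (((∑ p : S, lbl T p o • e.2 p : c.V)) : Fin (2 * c.g + 1) → ZMod 2) i = _
        rw [Submodule.coe_sum, Finset.sum_apply]
        rfl
      rw [e1]
      refine sum_congr rfl fun p _ => ?_
      rcases two_cases ((e.2 p).1 i) with h | h <;> rw [h]
      · rw [if_pos rfl, hlbl1, mul_zero]
        rfl
      · rw [if_neg one_ne_zero, mul_one]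
    obtain ⟨o1, o2⟩ := hLOCI T hT h2 c ρ (clL (fun p : S => lbl T p) e) (∏ q ∈ S, q) (c.zx e.2) m1
      (m2.trans hρ) hz
    obtain ⟨s1, s2⟩ := h𝓛 _ he1'
    refine ⟨DE_sf c hT hS e, o1.1 s1, fun p hp => ?_⟩
    by_cases hpT : p ∈ T
    · exact (o2 p hpT).1 (s2 p hpT)
    have hp2 : p ≠ 2 := fun h => hpT (h ▸ h2)
    rw [← hn]
    by_cases hpS : p ∈ S
    · -- a prime of the twist
      obtain ⟨P, hP⟩ : ∃ P : S, (P : ℕ) = p := ⟨⟨p, hpS⟩, rfl⟩
      obtain ⟨τ, hτ⟩ : ∃ τ : (Option T → c.V) × (S → c.V),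
          τ = ((fun o => c.TT (Pi.single o 1) (e.2 P)), fun _ => e.2 P) := ⟨_, rfl⟩
      have hτe : DE c τ = c.dz (fun o => c.TT (Pi.single o 1) (e.2 P))
          (fun i => if (e.2 P).1 i = 0 then 1 else n) := by
        unfold DE
        rw [hτ]
        congr 1
        funext i
        unfold Cr.zx
        by_cases h : (e.2 P).1 i = 0
        · rw [if_pos h]
          exact prod_eq_one fun q _ => if_pos h
        · rw [if_neg h, hn, ← Finset.prod_coe_sort S fun q => q]
          exact prod_congr rfl fun q _ => if_neg h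
      have hτl : LocJ ℚ_[p] (tw (n : ℤ) c.a) (DE c τ) := by
        rw [hτe]
        exact Pool.Agent.Q121.JQ.tor_loc c l8 l7 ℚ_[p] n hn0 (e.2 P)
      have hτr : rowL (c.dj 𝓛) (fun p q : S => nr p q) (fun p : S => lbl T p) τ P = 0 := by
        refine hROW T hT h2 c 𝓛 S hS τ P ?_
        subst hP
        intro _
        rw [← hn]
        exact hτl
      obtain ⟨e', he'⟩ : ∃ e', e' = e + τ := ⟨_, rfl⟩
      have hr' : rowL (c.dj 𝓛) (fun p q : S => nr p q) (fun p : S => lbl T p) e' P = 0 := by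
        rw [he', map_add, Pi.add_apply, hτr, hrow, add_zero]
        rfl
      have hx' : e'.2 P = 0 := by
        rw [he', hτ]
        exact add_self3 _
      have hx'' : ∀ i, (e'.2 P).1 i = 0 := fun i => by
        rw [hx']
        rfl
      have hloc' : LocJ ℚ_[p] (tw (n : ℤ) c.a) (DE c e') := by
        rw [locJ_iff]
        refine (LG.one _).congr (fun i => one_ne_zero) fun i => ?_
        rw [one_mul]
        obtain ⟨d1, d2⟩ := ch_DE c hT hSp hp.out hpT e' i fun q hq => by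
          rw [Subtype.ext (hq.trans hP.symm)]
          exact hx'' i
        refine padic_sq hp2 d1 (ch_zero.1 ?_)
        rw [d2]
        have h3 := congrFun (congrArg Subtype.val hr') i
        rw [row_comp] at h3
        have h4 : c.tf (lbl T P) (e'.2 P).1 i = 0 := by
          have : c.tf (lbl T P) (e'.2 P).1 i = (c.TT (lbl T P) (e'.2 P)).1 i := rfl
          rw [this, hx', map_zero]
          rfl
        rw [h4, add_zero] at h3
        have h5 : ∑ q : S, nr P q * ((e'.2 q).1 i + (e'.2 P).1 i) = ∑ q : S, (e'.2 q).1 i * nr p q := by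
          refine sum_congr rfl fun q _ => ?_
          rw [hx'' i, add_zero, hP, mul_comm]
        have h6 : ∑ t, lbl T P t * (e'.1 t).1 i = ∑ t, (e'.1 t).1 i * lbl T p t :=
          sum_congr rfl fun t _ => by rw [hP, mul_comm]
        rw [h5, h6, add_comm] at h3
        exact h3
      have hee : e = e' + τ := by
        rw [he', add_assoc, add_self3, add_zero]
      rw [hee]
      exact loc_add c hT hSp hai e' τ hloc' hτl
    · -- a prime of good reduction
      have hgood : ∀ k : PR (2 * c.g + 1), ¬ (p : ℤ) ∣ df (tw (n : ℤ) c.a) k := by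
        intro k hk
        rw [df_tw] at hk
        rcases (Nat.prime_iff_prime_int.1 hp.out).dvd_or_dvd hk with h | h
        · rw [Int.natCast_dvd_natCast, hn] at h
          obtain ⟨q, hq, hpq⟩ := (hp.out.prime.dvd_finsetProd_iff _).1 h
          rw [Nat.prime_dvd_prime_iff_eq hp.out (hS q hq).1] at hpq
          exact hpS (hpq ▸ hq)
        · exact hpT (c.supp _ _ (ne_of_lt k.2) p hp.out h)
      have hd := fun i => ch_DE c hT hSp hp.out hpT e i fun q hq => absurd (hq ▸ q.2) hpS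
      refine unr_loc hLSQ hLSZ hp2 _ (by rw [hg]) _ hai hgood _ (fun i => (hd i).1) ?_
      rw [sum_congr rfl fun i _ => (hd i).2, sum_add_distrib, sum_comm,
        sum_comm (s := univ) (t := (univ : Finset S))]
      rw [sum_eq_zero, sum_eq_zero, add_zero]
      · intro q _
        rw [← sum_mul, mem_VV.1 (e.2 q).2, zero_mul]
      · intro o _
        rw [← sum_mul, mem_VV.1 (e.1 o).2, zero_mul]
  have hinj : Function.Injective (fun e : Sel (c.dj 𝓛) (fun p q : S => nr p q) (fun p : S => lbl T p) =>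
      (⟨DE c e.1, hsub e.1 e.2⟩ : SelJ (tw ((∏ q ∈ S, q : ℕ) : ℤ) c.a))) := by
    intro e e' h
    exact Subtype.ext (DE_inj c hT hS (congrArg Subtype.val h))
  rw [← Nat.card_coe_set_eq]
  have : Finite (SelJ (tw ((∏ q ∈ S, q : ℕ) : ℤ) c.a)) := hfin
  exact Nat.card_le_card_of_injective _ hinj

end Pool.Agent.Q285.JQ
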