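import Pool.Agent.Q44.JQ.StmC

/-!
# Project JQ: the tame symbols of the tuples attached to the elements of the system
-/

set_option autoImplicit false
set_option linter.unusedVariables false

namespace Pool.Agent.Q285.JQ

open Finset Module Q44.JQ
open Pool.Agent.Y703.CQ (nr)
open Pool.Agent.TH344.JG (LocJ SelJ PR df)
open Pool.Agent.Y723.PT (tw dc LG locJ_iff isot)
open Pool.Agent.W313.BMX (Splits)
open Pool.Agent.Y676.HS (hs bl_padic hs_cls hs_cls')
open Q44.BN (jv)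
open Q44.TI (ch ch_mul ch_zero)
open scoped Classical

/-! ### Symbols -/

theorem two_cases (b : ZMod 2) : b = 0 ∨ b = 1 := by
  revert b
  decide

theorem ch_one' {p : ℕ} : ch (1 : ZMod p) = 0 := ch_zero.2 IsSquare.one

theorem nz {p : ℕ} {z : ℤ} (h : ¬ (p : ℤ) ∣ z) : ((z : ℤ) : ZMod p) ≠ 0 := by
  rwa [Ne, ZMod.intCast_zmod_eq_zero_iff_dvd]

theorem ch_mul' {p : ℕ} (pp : p.Prime) {x y : ℤ} (hx : ¬ (p : ℤ) ∣ x) (hy : ¬ (p : ℤ) ∣ y) :
    ch ((x * y : ℤ) : ZMod p) = ch ((x : ℤ) : ZMod p) + ch ((y : ℤ) : ZMod p) := by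
  haveI : Fact p.Prime := ⟨pp⟩
  rw [Int.cast_mul, ch_mul (nz hx) (nz hy)]

theorem nd_one {p : ℕ} (pp : p.Prime) : ¬ (p : ℤ) ∣ 1 := by
  intro h
  have h1 : p ∣ 1 := by exact_mod_cast h
  exact pp.one_lt.ne' (Nat.dvd_one.1 h1)

theorem nd_prod {p : ℕ} (pp : p.Prime) {ι : Type*} (s : Finset ι) (f : ι → ℤ)
    (hf : ∀ i ∈ s, ¬ (p : ℤ) ∣ f i) : ¬ (p : ℤ) ∣ ∏ i ∈ s, f i := by
  intro h
  obtain ⟨i, hi, h1⟩ := (Nat.prime_iff_prime_int.1 pp).exists_mem_finset_dvd h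
  exact hf i hi h1

theorem ch_prod {p : ℕ} (pp : p.Prime) {ι : Type*} (s : Finset ι) (f : ι → ℤ)
    (hf : ∀ i ∈ s, ¬ (p : ℤ) ∣ f i) :
    ch ((∏ i ∈ s, f i : ℤ) : ZMod p) = ∑ i ∈ s, ch ((f i : ℤ) : ZMod p) := by
  induction s using Finset.induction_on with
  | empty =>
    rw [prod_empty, sum_empty, Int.cast_one]
    exact ch_one'
  | insert a s ha ih =>
    have h1 : ∀ i ∈ s, ¬ (p : ℤ) ∣ f i := fun i hi => hf i (mem_insert_of_mem hi)
    rw [prod_insert ha, sum_insert ha, ch_mul' pp (hf a (mem_insert_self a s)) (nd_prod pp s f h1),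
      ih h1]

theorem ch_bit {p : ℕ} (b : ZMod 2) (z : ℤ) :
    ch (((if b = 0 then 1 else z : ℤ)) : ZMod p) = b * ch ((z : ℤ) : ZMod p) := by
  rcases two_cases b with rfl | rfl
  · rw [if_pos rfl, Int.cast_one, ch_one', zero_mul]
  · rw [if_neg (by decide), one_mul]

theorem nd_bit {p : ℕ} (pp : p.Prime) (b : ZMod 2) {z : ℤ} (hz : ¬ (p : ℤ) ∣ z) :
    ¬ (p : ℤ) ∣ (if b = 0 then 1 else z : ℤ) := by
  split_ifs
  · exact nd_one pp
  · exact hz

theorem bit_pow (b : ZMod 2) (p : ℕ) : (if b = 0 then 1 else (p : ℤ)) = (p : ℤ) ^ b.val := by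
  rcases two_cases b with rfl | rfl
  · rw [if_pos rfl, ZMod.val_zero, pow_zero]
  · rw [if_neg (by decide)]
    have : (1 : ZMod 2).val = 1 := rfl
    rw [this, pow_one]

theorem val_cast (b : ZMod 2) : ((b.val : ℕ) : ZMod 2) = b := by
  revert b
  decide

/-! ### Local symbols -/

theorem hp_eq {p : ℕ} [hpp : Fact p.Prime] (a b : ℤ) : Q44.JQ.hp p a b = hv (a : ℚ_[p]) (b : ℚ_[p]) := by
  unfold Q44.JQ.hp
  rw [dif_pos hpp.out]

/-- a bilinear symbol -/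
structure Bil (K : Type) [Field K] : Prop where
  l : ∀ a b c : K, a ≠ 0 → b ≠ 0 → c ≠ 0 → hv (a * b) c = hv a c + hv b c
  r : ∀ a b c : K, a ≠ 0 → b ≠ 0 → c ≠ 0 → hv c (a * b) = hv c a + hv c b
  s : ∀ a b : K, a ≠ 0 → b ≠ 0 → hv a b = hv b a
  q : ∀ a b : K, a ≠ 0 → b ≠ 0 → hv a (b * b) = 0

theorem bil_p (h : S_HVB) (p : ℕ) [Fact p.Prime] : Bil ℚ_[p] where
  l a b c ha hb hc := (h.1 p a b c ha hb hc).1
  r a b c ha hb hc := (h.1 p a b c ha hb hc).2.1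
  s a b ha hb := (h.1 p a b b ha hb hb).2.2.1
  q a b ha hb := (h.1 p a b b ha hb hb).2.2.2

theorem bil_r (h : S_HVB) : Bil ℝ where
  l a b c ha hb hc := (h.2 a b c ha hb hc).1
  r a b c ha hb hc := (h.2 a b c ha hb hc).2.1
  s a b ha hb := (h.2 a b b ha hb hb).2.2.1
  q a b ha hb := (h.2 a b b ha hb hb).2.2.2

section bil

variable {K : Type} [Field K]

theorem Bil.prod (h : Bil K) {ι : Type*} (s : Finset ι) (f : ι → K) (hf : ∀ i ∈ s, f i ≠ 0) {a : K}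
    (ha : a ≠ 0) : hv a (∏ i ∈ s, f i) = ∑ i ∈ s, hv a (f i) := by
  induction s using Finset.induction_on with
  | empty =>
    rw [prod_empty, sum_empty]
    have := h.q a 1 ha one_ne_zero
    rwa [mul_one] at this
  | insert b s hb ih =>
    have h1 : ∀ i ∈ s, f i ≠ 0 := fun i hi => hf i (mem_insert_of_mem hi)
    rw [prod_insert hb, sum_insert hb, h.r _ _ _ (hf b (mem_insert_self b s))
      (prod_ne_zero_iff.2 h1) ha, ih h1]

theorem hs_hv (a b : K) : hs a b = if hv a b = 0 then 1 else -1 := by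
  unfold hs hv
  by_cases h : Splits a b
  · rw [if_pos h, if_pos h, if_pos rfl]
  · rw [if_neg h, if_neg h, if_neg (by decide)]

theorem prod_hs {ι : Type*} (s : Finset ι) (f g : ι → K) :
    ∏ i ∈ s, hs (f i) (g i) = if ∑ i ∈ s, hv (f i) (g i) = 0 then 1 else -1 := by
  induction s using Finset.induction_on with
  | empty => rw [prod_empty, sum_empty, if_pos rfl]
  | insert b s hb ih =>
    rw [prod_insert hb, sum_insert hb, ih, hs_hv]
    generalize ∑ i ∈ s, hv (f i) (g i) = x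
    generalize hv (f b) (g b) = y
    revert x y
    decide

theorem sum_hv {ι : Type*} (s : Finset ι) (f g : ι → K) (h : ∏ i ∈ s, hs (f i) (g i) = 1) :
    ∑ i ∈ s, hv (f i) (g i) = 0 := by
  rw [prod_hs] at h
  by_contra h1
  rw [if_neg h1] at h
  exact absurd h (by decide)

/-- symbols of elements of the same class -/
theorem hv_cls {u u' : K} (hu' : u' ≠ 0) (hu : u ≠ 0) (h : IsSquare (u * u')) (v : K) :
    hv u v = hv u' v := by
  have h1 := hs_cls hu' hu h v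
  rw [hs_hv, hs_hv] at h1
  revert h1
  generalize hv u v = x
  generalize hv u' v = y
  revert x y
  decide

theorem hv_cls' {u u' : K} (hu' : u' ≠ 0) (hu : u ≠ 0) (h : IsSquare (u * u')) (v : K) :
    hv v u = hv v u' := by
  have h1 := hs_cls' hu' hu h v
  rw [hs_hv, hs_hv] at h1
  revert h1
  generalize hv v u = x
  generalize hv v u' = y
  revert x y
  decide

end bil

/-! ### Components of the rows -/

section rows

variable {T : Finset ℕ} (c : Cr T)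

theorem row_comp (𝓛 : Submodule (ZMod 2) ((Option T → c.V) × (Option T → c.V))) {P : Type} [Fintype P]
    (N : P → P → ZMod 2) (h : P → Option T → ZMod 2) (e : (Option T → c.V) × (P → c.V)) (p : P)
    (j : Fin (2 * c.g + 1)) : (rowL (c.dj 𝓛) N h e p).1 j =
      ∑ q, N p q * ((e.2 q).1 j + (e.2 p).1 j) + c.tf (h p) (e.2 p).1 j + ∑ t, h p t * (e.1 t).1 j := by
  have h1 : rowL (c.dj 𝓛) N h e p = ∑ q, N p q • (e.2 q + e.2 p) + c.TT (h p) (e.2 p) +
      ∑ t, h p t • e.1 t := rfl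
  rw [h1, Submodule.coe_add, Submodule.coe_add, Pi.add_apply, Pi.add_apply, Submodule.coe_sum,
    Submodule.coe_sum, Finset.sum_apply, Finset.sum_apply]
  rfl

/-- an element is prime to the prime outside of the set -/
theorem tv_nd {p : ℕ} (pp : p.Prime) (hT : ∀ q ∈ T, q.Prime) (hpT : p ∉ T) (o : Option T) :
    ¬ (p : ℤ) ∣ tv o := by
  cases o with
  | none =>
    show ¬ (p : ℤ) ∣ -1
    rw [dvd_neg]
    exact nd_one pp
  | some t =>
    show ¬ (p : ℤ) ∣ ((t : ℕ) : ℤ)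
    intro h
    have h1 := (Nat.prime_dvd_prime_iff_eq pp (hT t t.2)).1 (Int.natCast_dvd_natCast.1 h)
    exact hpT (h1 ▸ t.2)

theorem Uo_nd {p : ℕ} (pp : p.Prime) (hT : ∀ q ∈ T, q.Prime) (hpT : p ∉ T)
    (γ : Option T → ZMod 2) : ¬ (p : ℤ) ∣ Uo γ :=
  nd_prod pp _ _ fun o _ => nd_bit pp _ (tv_nd pp hT hpT o)

theorem ch_Uo {p : ℕ} (pp : p.Prime) (hT : ∀ q ∈ T, q.Prime) (hpT : p ∉ T)
    (γ : Option T → ZMod 2) : ch ((Uo γ : ℤ) : ZMod p) = ∑ o, γ o * ch ((tv o : ℤ) : ZMod p) := by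
  unfold Uo
  rw [ch_prod pp _ _ fun o _ => nd_bit pp _ (tv_nd pp hT hpT o)]
  exact sum_congr rfl fun o _ => ch_bit _ _

theorem Uo_ne (hT : ∀ q ∈ T, q.Prime) (γ : Option T → ZMod 2) : Uo γ ≠ 0 := by
  unfold Uo
  rw [prod_ne_zero_iff]
  intro o _
  split_ifs
  · exact one_ne_zero
  · cases o with
    | none => exact neg_ne_zero.2 one_ne_zero
    | some t =>
      show ((t : ℕ) : ℤ) ≠ 0
      exact_mod_cast (hT t t.2).ne_zero

theorem df_nd {p : ℕ} (pp : p.Prime) (hpT : p ∉ T) {i j : Fin (2 * c.g + 1)} (hij : i ≠ j) :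
    ¬ (p : ℤ) ∣ c.a i - c.a j := fun h => hpT (c.supp i j hij p pp h)

theorem lbl_ch {p : ℕ} (pp : p.Prime) (hT : ∀ q ∈ T, q.Prime) (hpT : p ∉ T) (o : Option T) :
    lbl T p o = ch ((tv o : ℤ) : ZMod p) :=
  Q44.BN.jv_prime pp (nz (tv_nd pp hT hpT o))

/-- the operator, in terms of the symbols of the differences -/
theorem tf_ch (hLBL : S_LBL) (hT : ∀ q ∈ T, q.Prime) (h2 : 2 ∈ T) {p : ℕ} (pp : p.Prime)
    (hpT : p ∉ T) (x : Fin (2 * c.g + 1) → ZMod 2) (j : Fin (2 * c.g + 1)) :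
    c.tf (lbl T p) x j = ∑ i ∈ univ.erase j, ch ((c.a j - c.a i : ℤ) : ZMod p) * (x j + x i) +
      ch ((-1 : ℤ) : ZMod p) * x j := by
  have hcop : Cop T p := fun q hq h => hpT (((Nat.prime_dvd_prime_iff_eq (hT q hq) pp).1 h) ▸ hq)
  unfold Cr.tf
  rw [lbl_ch pp hT hpT none]
  congr 1
  refine sum_congr rfl fun i hi => ?_
  have hij : j ≠ i := (mem_erase.1 hi).1.symm
  rw [← (hLBL T hT h2).2.1 (c.a j - c.a i) p (sub_ne_zero.2 fun h => hij (c.inj h))
    (fun q hq h => c.supp j i hij q hq h) hcop]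
  rw [Q44.BN.jv_prime pp (nz (df_nd c pp hpT hij))]

end rows

end Pool.Agent.Q285.JQ
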