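import Pool.Agent.Q285.JQ.SQP

/-!
# Project JQ (helper44): unramified classes at the primes of good reduction
-/

set_option autoImplicit false
set_option linter.unusedVariables false

namespace Pool.Agent.Q285.JQ

open Finset Module Q44.JQ
open Pool.Agent.TH344.JG (LocJ SelJ PR df)
open Pool.Agent.Y723.PT (tw dc LG isSquare_cancel locJ_iff)
open Pool.Agent.Y723.JG (goodj)
open Q44.TI (ch ch_mul ch_zero padic_sq)
open scoped Classical

/-- the number of the square classes, as a function of a natural number -/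
noncomputable def nsc (p : ℕ) : ℕ :=
  if h : p.Prime then (haveI := Fact.mk h; Nat.card (SC ℚ_[p])) else 1

theorem nsc_eq {p : ℕ} [hp : Fact p.Prime] : nsc p = Nat.card (SC ℚ_[p]) := by
  unfold nsc
  rw [dif_pos hp.out]

theorem prod_nsc {T : Finset ℕ} (hLSQ : S_LSQ) (hT : ∀ p ∈ T, p.Prime) (hT2 : 2 ∈ T) :
    Nat.card (SC ℝ) * ∏ p ∈ T, nsc p = 4 ^ (T.card + 1) := by
  have hF : ∀ p : T, Fact (p : ℕ).Prime := fun p => ⟨hT p p.2⟩
  rw [← card_sc hLSQ hT hT2, ← Finset.prod_coe_sort T nsc]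
  congr 1
  exact prod_congr rfl fun p _ => nsc_eq

theorem card_sc_p (hLSQ : S_LSQ) {p : ℕ} [hp : Fact p.Prime] (hp2 : p ≠ 2) :
    Nat.card (SC ℚ_[p]) = 4 := by
  have h1 := prod_nsc (T := {2}) hLSQ (by
    intro q hq
    rw [mem_singleton.1 hq]
    exact Nat.prime_two) (mem_singleton_self 2)
  have h2 := prod_nsc (T := {2, p}) hLSQ (by
    intro q hq
    rcases mem_insert.1 hq with h | h
    · rw [h]
      exact Nat.prime_two
    · rw [mem_singleton.1 h]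
      exact hp.out) (mem_insert_self _ _)
  rw [prod_singleton, card_singleton] at h1
  rw [prod_pair hp2.symm, card_pair hp2.symm, ← mul_assoc, h1] at h2
  rw [← nsc_eq]
  omega

/-- the valuation of an integer which is a square -/
theorem sq_mod_int {p : ℕ} [hp : Fact p.Prime] {N : ℤ} (hN : ¬ (p : ℤ) ∣ N)
    (h : IsSquare ((N : ℤ) : ℚ_[p])) : IsSquare ((N : ℤ) : ZMod p) := by
  obtain ⟨x, hx⟩ := h
  have h1 : ‖((N : ℤ) : ℚ_[p])‖ = 1 := by
    rcases lt_or_eq_of_le (Padic.norm_int_le_one (p := p) N) with h3 | h3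
    · exact absurd ((Padic.norm_intCast_lt_one_iff (p := p) (k := N)).1 h3) hN
    · exact h3
  have h2 : ‖x‖ = 1 := by
    have : ‖x‖ * ‖x‖ = 1 := by rw [← norm_mul, ← hx, h1]
    nlinarith [norm_nonneg x]
  let y : ℤ_[p] := ⟨x, h2.le⟩
  have h3 : ((N : ℤ) : ℤ_[p]) = y * y := by
    apply Subtype.ext
    push_cast
    exact hx
  have h4 := congrArg (PadicInt.toZMod (p := p)) h3
  rw [map_intCast, map_mul] at h4
  exact ⟨_, h4⟩

theorem ch_ne {p : ℕ} {x : ZMod p} (h : ¬ IsSquare x) : ch x = 1 := by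
  unfold ch
  rw [if_neg h]

/-- the class of a unit -/
theorem cls_unit {p : ℕ} [hp : Fact p.Prime] (hp2 : p ≠ 2) {q : ℤ} (hq : ¬ IsSquare (q : ZMod p))
    {u : ℤ} (hu : ¬ (p : ℤ) ∣ u) :
    cls ((u : ℤ) : ℚ_[p]) = if ch ((u : ℤ) : ZMod p) = 0 then cls 1 else cls ((q : ℤ) : ℚ_[p]) := by
  have hu0 : u ≠ 0 := by
    rintro rfl
    exact hu (dvd_zero _)
  have hqp : ¬ (p : ℤ) ∣ q := by
    intro h
    refine hq ?_
    rw [(ZMod.intCast_zmod_eq_zero_iff_dvd q p).2 h]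
    exact ⟨0, (mul_zero 0).symm⟩
  have hq0 : q ≠ 0 := by
    rintro rfl
    exact hqp (dvd_zero _)
  split_ifs with h
  · rw [cls_eq (Int.cast_ne_zero.2 hu0) one_ne_zero, mul_one]
    exact padic_sq hp2 hu (ch_zero.1 h)
  · rw [cls_eq (Int.cast_ne_zero.2 hu0) (Int.cast_ne_zero.2 hq0), ← Int.cast_mul]
    refine padic_sq hp2 (fun hd => ?_) (ch_zero.1 ?_)
    · rcases (Nat.prime_iff_prime_int.1 hp.out).dvd_or_dvd hd with h1 | h1
      · exact hu h1
      · exact hqp h1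
    · rw [ch_mul' hp.out hu hqp, ch_ne hq, (two_cases _).resolve_left h]
      decide

/-- squarefree representatives -/
theorem ex_sf {p : ℕ} [hp : Fact p.Prime] (hp2 : p ≠ 2) (x : SC ℚ_[p]) :
    ∃ d : ℤ, Squarefree d ∧ cls ((d : ℤ) : ℚ_[p]) = x := by
  obtain ⟨y, hy0, rfl⟩ := cls_surj x
  obtain ⟨e, n, hn, hsq⟩ := ex_rep hy0
  obtain ⟨q, hqp, hq, hqn⟩ := Nat.forall_exists_prime_gt_and_eq_mod (q := p) (a := (n : ZMod p))
    ((ZMod.isUnit_iff_coprime n p).2 ((Nat.Prime.coprime_iff_not_dvd hp.out).2 hn).symm) p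
  have hpq : ¬ p ∣ q := by
    intro h
    have := (Nat.prime_dvd_prime_iff_eq hp.out hq).1 h
    omega
  have hn0 : (n : ℤ) ≠ 0 := by
    intro h
    have h' : n = 0 := by exact_mod_cast h
    exact hn (h' ▸ dvd_zero _)
  have h1 : IsSquare (((n * q : ℤ)) : ℚ_[p]) := by
    refine padic_sq hp2 (fun hd => ?_) ?_
    · rcases (Nat.prime_iff_prime_int.1 hp.out).dvd_or_dvd hd with h1 | h1
      · exact hn (Int.natCast_dvd_natCast.1 h1)
      · exact hpq (Int.natCast_dvd_natCast.1 h1)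
    · push_cast
      rw [hqn]
      exact ⟨_, rfl⟩
  have hqz : ((q : ℕ) : ℤ) ≠ 0 := by exact_mod_cast hq.ne_zero
  have hpz : ((p : ℕ) : ℤ) ≠ 0 := by exact_mod_cast hp.out.ne_zero
  refine ⟨(p : ℤ) ^ e.val * q, ?_, ?_⟩
  · rcases two_cases e with rfl | rfl
    · rw [ZMod.val_zero, pow_zero, one_mul]
      exact (Nat.prime_iff_prime_int.1 hq).squarefree
    · have hv : (1 : ZMod 2).val = 1 := rfl
      rw [hv, pow_one]
      refine (squarefree_mul_iff).2 ⟨?_, (Nat.prime_iff_prime_int.1 hp.out).squarefree,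
        (Nat.prime_iff_prime_int.1 hq).squarefree⟩
      refine IsCoprime.isRelPrime ?_
      rw [Nat.isCoprime_iff_coprime]
      exact (Nat.coprime_primes hp.out hq).2 fun h => hpq (h ▸ dvd_refl _)
  · rw [cls_eq (Int.cast_ne_zero.2 (mul_ne_zero (pow_ne_zero _ hpz) hqz)) hy0]
    have h2 := hsq.mul h1
    have e1 : y * ((p : ℚ_[p]) ^ e.val * (n : ℚ_[p])) * ((n * q : ℤ) : ℚ_[p]) =
        ((n : ℚ_[p]) * n) * ((((p : ℤ) ^ e.val * q : ℤ) : ℚ_[p]) * y) := by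
      push_cast
      ring
    rw [e1] at h2
    have hnK : (n : ℚ_[p]) ≠ 0 := by exact_mod_cast hn0
    exact isSquare_cancel (mul_ne_zero hnK hnK) ⟨_, rfl⟩ h2

theorem card_VV3 : Nat.card (VV 3) = 4 := by
  have h : Nat.card (VV 3) = Nat.card {x : Fin 3 → ZMod 2 // ∑ i, x i = 0} := rfl
  rw [h, Nat.card_eq_fintype_card]
  decide

/-- all unramified tuples satisfy the local condition at a prime of good reduction -/
theorem unr_loc (hLSQ : S_LSQ) (hLSZ : S_LSZ) {p : ℕ} [hp : Fact p.Prime] (hp2 : p ≠ 2) :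
    ∀ (m : ℕ), m = 3 → ∀ a : Fin m → ℤ, Function.Injective a → (∀ c : PR m, ¬ (p : ℤ) ∣ df a c) →
    ∀ u : Fin m → ℤ, (∀ i, ¬ (p : ℤ) ∣ u i) → ∑ i, ch ((u i : ℤ) : ZMod p) = 0 →
    LocJ ℚ_[p] a u := by
  rintro m rfl a ha hgood u hu hs
  obtain ⟨q', hq'⟩ := FiniteField.exists_nonsquare (F := ZMod p) (by rwa [ZMod.ringChar_zmod_n])
  obtain ⟨q, hq⟩ : ∃ q : ℤ, ¬ IsSquare (q : ZMod p) := ⟨((q'.val : ℕ) : ℤ), by
    rw [Int.cast_natCast, ZMod.natCast_zmod_val]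
    exact hq'⟩
  obtain ⟨f, hf⟩ : ∃ f : VV 3 → (Fin 3 → SC ℚ_[p]), f = fun s i =>
    if s.1 i = 0 then cls 1 else cls ((q : ℤ) : ℚ_[p]) := ⟨_, rfl⟩
  have hmem : ∀ d : Fin 3 → ℤ, (∀ i, ¬ (p : ℤ) ∣ d i) → ∑ i, ch ((d i : ℤ) : ZMod p) = 0 →
      (fun i => cls ((d i : ℤ) : ℚ_[p])) ∈ Set.range f := by
    intro d hd hsd
    refine ⟨⟨fun i => ch ((d i : ℤ) : ZMod p), hsd⟩, ?_⟩
    rw [hf]
    exact funext fun i => (cls_unit hp2 hq (hd i)).symm
  have hsub : imJ ℚ_[p] a ⊆ Set.range f := by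
    intro x hx
    choose d hsf hdx using fun i => ex_sf hp2 (x i)
    have hd0 : ∀ i, d i ≠ 0 := fun i => (hsf i).ne_zero
    have e1 : (fun i => cls ((d i : ℤ) : ℚ_[p])) = x := funext hdx
    rw [← e1] at hx ⊢
    have h1 : LocJ ℚ_[p] a d := (imJ_iff a _ fun i => Int.cast_ne_zero.2 (hd0 i)).1 hx
    have h2 := goodj 3 p a d ⟨1, rfl⟩ hp2 hgood hsf h1
    refine hmem d h2 ?_
    have h3 := LG.prod_sq (locJ_iff.1 h1)
    rw [← Int.cast_prod] at h3
    have h4 : ¬ (p : ℤ) ∣ ∏ i, d i := nd_prod hp.out _ _ fun i _ => h2 i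
    rw [← ch_prod hp.out _ _ fun i _ => h2 i]
    exact ch_zero.2 (sq_mod_int h4 h3)
  have hfin : (Set.range f).Finite := Set.finite_range f
  have hle : (Set.range f).ncard ≤ (imJ ℚ_[p] a).ncard := by
    have h1 : (imJ ℚ_[p] a).ncard = 4 := by
      rw [← Nat.card_coe_set_eq, hLSZ.1 p a ha, card_sc_p hLSQ hp2]
    have h2 : (Set.range f).ncard ≤ 4 := by
      rw [← Set.image_univ]
      refine (Set.ncard_image_le Set.finite_univ).trans ?_
      rw [Set.ncard_univ, card_VV3]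
    omega
  have heq := Set.eq_of_subset_of_ncard_le hsub hle hfin
  have h5 := hmem u hu hs
  have hu0 : ∀ i, u i ≠ 0 := by
    intro i h
    exact hu i (by rw [h]; exact dvd_zero _)
  rw [← heq, imJ_iff _ _ fun i => Int.cast_ne_zero.2 (hu0 i)] at h5
  exact h5

end Pool.Agent.Q285.JQ
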