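import Pool.Agent.Q44.JQ.StmG
import Pool.Agent.Q24.JQ.LOCI
import Pool.Agent.Q121.JQ.LCL

/-!
# Project JQ (helper44), fourth version: square classes of the local fields at `T`
-/

set_option autoImplicit false
set_option linter.unusedVariables false

namespace Pool.Agent.Q285.JQ

open Finset Module Q44.JQ
open Pool.Agent.TH344.JG (LocJ SelJ PR df)
open Pool.Agent.Y723.PT (tw dc LG)
open scoped Classical

/-! ### Square classes of a field -/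

section classes

variable {K : Type} [Field K]

theorem sc_eq (x y : Kˣ) : (QuotientGroup.mk x : SC K) = QuotientGroup.mk y ↔
    IsSquare ((x : K) * y) := by
  rw [QuotientGroup.eq]
  constructor
  · rintro ⟨w, hw⟩
    have h : w ^ 2 = x⁻¹ * y := hw
    have h2 : y = x * w ^ 2 := by rw [h, mul_inv_cancel_left]
    refine ⟨(x : K) * w, ?_⟩
    rw [h2]
    push_cast
    ring
  · rintro ⟨s, hs⟩
    have hs0 : s ≠ 0 := by
      rintro rfl
      rw [mul_zero] at hs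
      exact mul_ne_zero x.ne_zero y.ne_zero hs
    refine ⟨x⁻¹ * Units.mk0 s hs0, ?_⟩
    show (x⁻¹ * Units.mk0 s hs0) ^ 2 = x⁻¹ * y
    have h1 : Units.mk0 s hs0 * Units.mk0 s hs0 = x * y := Units.ext hs.symm
    rw [mul_pow, pow_two (Units.mk0 s hs0), h1, pow_two, mul_assoc, inv_mul_cancel_left]

/-- the class of a nonzero element -/
noncomputable def cls (d : K) : SC K := if h : d ≠ 0 then QuotientGroup.mk (Units.mk0 d h) else 1

theorem cls_mk {d : K} (hd : d ≠ 0) (w : Kˣ) : cls d = QuotientGroup.mk w ↔ IsSquare (d * w) := by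
  unfold cls
  rw [dif_pos hd, sc_eq]
  rfl

theorem cls_eq {d e : K} (hd : d ≠ 0) (he : e ≠ 0) : cls d = cls e ↔ IsSquare (d * e) := by
  have h : cls e = QuotientGroup.mk (Units.mk0 e he) := by
    unfold cls
    rw [dif_pos he]
  rw [h, cls_mk hd]
  rfl

theorem cls_surj (x : SC K) : ∃ d : K, d ≠ 0 ∧ cls d = x := by
  obtain ⟨w, rfl⟩ := QuotientGroup.mk_surjective x
  refine ⟨w, w.ne_zero, (cls_mk w.ne_zero w).2 ⟨_, rfl⟩⟩

theorem imJ_iff {n : ℕ} (a : Fin n → ℤ) (d : Fin n → K) (hd : ∀ i, d i ≠ 0) :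
    (fun i => cls (d i)) ∈ imJ K a ↔ LG (fun i => ((a i : ℤ) : K)) d := by
  constructor
  · rintro ⟨u, v, hu, huv, h⟩
    refine ⟨u, v, hu, huv, fun i => ?_⟩
    obtain ⟨w, hw, h1⟩ := h i
    rw [cls_mk (hd i)] at h1
    refine ⟨fun h0 => w.ne_zero ?_, ?_⟩
    · rw [hw, h0, mul_zero]
    · rw [← hw, mul_comm]
      exact h1
  · rintro ⟨u, v, hu, huv, h⟩
    refine ⟨u, v, hu, huv, fun i => ?_⟩
    obtain ⟨h1, h2⟩ := h i
    have h3 : (-1) ^ u.natDegree * u.eval ((a i : ℤ) : K) ≠ 0 :=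
      mul_ne_zero (pow_ne_zero _ (neg_ne_zero.2 one_ne_zero)) h1
    refine ⟨Units.mk0 _ h3, rfl, ?_⟩
    rw [cls_mk (hd i), mul_comm]
    exact h2

end classes

/-! ### Square classes of the p-adic numbers -/

theorem sq_near {p : ℕ} [Fact p.Prime] (w : ℤ_[p]) (s : ℕ) (hs : ¬ p ∣ s)
    (h : PadicInt.toZModPow 3 w = ((s : ℕ) : ZMod (p ^ 3)) ^ 2) : IsSquare w := by
  have hpp : p.Prime := Fact.out
  have hu : IsUnit ((s : ℕ) : ℤ_[p]) := by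
    rw [PadicInt.isUnit_iff, PadicInt.norm_def]
    push_cast
    rw [Padic.norm_natCast_eq_one_iff]
    exact (Nat.Prime.coprime_iff_not_dvd hpp).2 hs
  have hk : w - ((s : ℕ) : ℤ_[p]) ^ 2 ∈ RingHom.ker (PadicInt.toZModPow (p := p) 3) := by
    rw [RingHom.mem_ker, map_sub, map_pow, map_natCast, h, sub_self]
  rw [PadicInt.ker_toZModPow, Ideal.mem_span_singleton] at hk
  obtain ⟨t, ht⟩ := hk
  obtain ⟨s', hs'⟩ : ∃ s' : ℤ_[p], (p : ℤ_[p]) ^ 3 = 4 * p * s' := by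
    by_cases hp2 : p = 2
    · subst hp2
      exact ⟨1, by push_cast; norm_num⟩
    · have h4 : IsUnit ((4 : ℕ) : ℤ_[p]) := by
        rw [PadicInt.isUnit_iff, PadicInt.norm_def]
        push_cast
        have h5 := (Padic.norm_natCast_eq_one_iff (p := p) (n := 4)).2 (by
          rw [Nat.Prime.coprime_iff_not_dvd hpp]
          intro h6
          have h7 : p ∣ 2 ^ 2 := by norm_num; exact h6
          exact hp2 ((Nat.prime_dvd_prime_iff_eq hpp Nat.prime_two).1 (hpp.dvd_of_dvd_pow h7)))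
        push_cast at h5
        exact h5
      obtain ⟨u, hu4⟩ := h4
      refine ⟨(p : ℤ_[p]) ^ 2 * (u⁻¹ : ℤ_[p]ˣ), ?_⟩
      have h5 : (4 : ℤ_[p]) * (u⁻¹ : ℤ_[p]ˣ) = 1 := by
        have h6 : ((u : ℤ_[p])) = 4 := by rw [hu4]; push_cast; rfl
        rw [← h6]
        exact u.mul_inv
      linear_combination (-(p : ℤ_[p]) ^ 3) * h5
  obtain ⟨u, hu'⟩ := hu
  have h1 := Pool.Agent.Z864.LQ.hens p (s' * t * ((u⁻¹ : ℤ_[p]ˣ) : ℤ_[p]) ^ 2)
  have h2 : w = ((u : ℤ_[p]) * u) * (1 + 4 * p * (s' * t * ((u⁻¹ : ℤ_[p]ˣ) : ℤ_[p]) ^ 2)) := by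
    have h3 : w = (u : ℤ_[p]) ^ 2 + 4 * p * s' * t := by
      rw [← hs', ← ht, hu']
      ring
    have h4 : (u : ℤ_[p]) * ((u⁻¹ : ℤ_[p]ˣ) : ℤ_[p]) = 1 := u.mul_inv
    rw [h3]
    linear_combination (-(4 * p * s' * t) * ((u : ℤ_[p]) * ((u⁻¹ : ℤ_[p]ˣ) : ℤ_[p]) + 1)) * h4
  rw [h2]
  exact IsSquare.mul ⟨_, rfl⟩ h1

theorem sq_near_int {p : ℕ} [Fact p.Prime] (N : ℤ) (s : ℕ) (hs : ¬ p ∣ s)
    (h : (N : ZMod (p ^ 3)) = ((s : ℕ) : ZMod (p ^ 3)) ^ 2) : IsSquare ((N : ℤ) : ℚ_[p]) := by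
  have h1 := sq_near ((N : ℤ) : ℤ_[p]) s hs (by rw [map_intCast]; exact h)
  obtain ⟨x, hx⟩ := h1
  refine ⟨x, ?_⟩
  have := congrArg (fun t : ℤ_[p] => (t : ℚ_[p])) hx
  push_cast at this
  exact this

/-- representatives of the classes -/
theorem ex_rep {p : ℕ} [Fact p.Prime] {x : ℚ_[p]} (hx : x ≠ 0) :
    ∃ (e : ZMod 2) (n : ℕ), ¬ p ∣ n ∧ IsSquare (x * ((p : ℚ_[p]) ^ e.val * (n : ℚ_[p]))) := by
  have hpp : p.Prime := Fact.out
  have hp0 : (p : ℚ_[p]) ≠ 0 := by exact_mod_cast hpp.ne_zero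
  obtain ⟨v, hv⟩ : ∃ v, v = x.valuation := ⟨_, rfl⟩
  obtain ⟨k, e, hk⟩ : ∃ (k : ℤ) (e : ZMod 2), v + (e.val : ℤ) = 2 * k := by
    rcases Int.even_or_odd v with ⟨k, hk⟩ | ⟨k, hk⟩
    · exact ⟨k, 0, by rw [ZMod.val_zero]; push_cast; omega⟩
    · refine ⟨k + 1, 1, ?_⟩
      have : (1 : ZMod 2).val = 1 := rfl
      rw [this]
      push_cast
      omega
  obtain ⟨y, hy⟩ : ∃ y, y = x * (p : ℚ_[p]) ^ e.val * (p : ℚ_[p]) ^ (-(2 * k)) := ⟨_, rfl⟩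
  have hyn : ‖y‖ = 1 := by
    rw [hy, norm_mul, norm_mul, norm_pow, norm_zpow, Padic.norm_p,
      Padic.norm_eq_zpow_neg_valuation hx, ← hv]
    have hpr : (p : ℝ) ≠ 0 := by exact_mod_cast hpp.ne_zero
    rw [← zpow_natCast, ← zpow_neg_one, ← zpow_mul, ← zpow_mul, ← zpow_add₀ hpr, ← zpow_add₀ hpr]
    have : -v + -1 * (e.val : ℤ) + -1 * -(2 * k) = 0 := by linarith
    rw [this, zpow_zero]
  obtain ⟨Y, hY⟩ : ∃ Y : ℤ_[p], (Y : ℚ_[p]) = y := ⟨⟨y, hyn.le⟩, rfl⟩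
  have : NeZero (p ^ 3) := ⟨pow_ne_zero 3 hpp.ne_zero⟩
  obtain ⟨n, hn⟩ : ∃ n : ℕ, PadicInt.toZModPow 3 Y = ((n : ℕ) : ZMod (p ^ 3)) :=
    ⟨(PadicInt.toZModPow 3 Y).val, (ZMod.natCast_zmod_val _).symm⟩
  have hpn : ¬ p ∣ n := by
    intro hd
    have hk : Y - (n : ℤ_[p]) ∈ RingHom.ker (PadicInt.toZModPow (p := p) 3) := by
      rw [RingHom.mem_ker, map_sub, map_natCast, hn, sub_self]
    rw [PadicInt.ker_toZModPow, Ideal.mem_span_singleton] at hk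
    obtain ⟨t, ht⟩ := hk
    obtain ⟨m, hm⟩ := hd
    have h1 : Y = (p : ℤ_[p]) * ((p : ℤ_[p]) ^ 2 * t + m) := by
      have : (n : ℤ_[p]) = p * m := by rw [hm]; push_cast; rfl
      linear_combination ht + this
    have h2 : ‖Y‖ < 1 := by
      rw [h1, norm_mul]
      have h3 : ‖(p : ℤ_[p])‖ < 1 := by
        rw [PadicInt.norm_p]
        exact inv_lt_one_of_one_lt₀ (by exact_mod_cast hpp.one_lt)
      have h4 := PadicInt.norm_le_one ((p : ℤ_[p]) ^ 2 * t + (m : ℤ_[p]))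
      have h5 : 0 ≤ ‖(p : ℤ_[p])‖ := norm_nonneg _
      nlinarith
    rw [PadicInt.norm_def, hY, hyn] at h2
    exact lt_irrefl _ h2
  refine ⟨e, n, hpn, ?_⟩
  have h1 : IsSquare (Y * (n : ℤ_[p])) := by
    refine sq_near _ n hpn ?_
    rw [map_mul, map_natCast, hn, pow_two]
  obtain ⟨r, hr⟩ := h1
  have h2 : y * (n : ℚ_[p]) = (r : ℚ_[p]) * r := by
    have := congrArg (fun t : ℤ_[p] => (t : ℚ_[p])) hr
    push_cast at this
    rw [← hY]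
    exact this
  refine ⟨r * (p : ℚ_[p]) ^ k, ?_⟩
  have h3 : x * ((p : ℚ_[p]) ^ e.val * (n : ℚ_[p])) = y * n * (p : ℚ_[p]) ^ (2 * k) := by
    rw [hy, zpow_neg]
    have := zpow_ne_zero (2 * k) hp0
    field_simp
  have h4 : (p : ℚ_[p]) ^ (2 * k) = (p : ℚ_[p]) ^ k * (p : ℚ_[p]) ^ k := by
    rw [two_mul, zpow_add₀ hp0]
  rw [h3, h2, h4]
  ring

end Pool.Agent.Q285.JQ
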