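import Pool.Agent.Q285.JQ.SQC
import Pool.Agent.Q285.JQ.Ax
import Pool.Agent.Q285.JQ.LSQ

/-!
# Project JQ (helper44), fourth version: the square classes at `T` are the pairs of labels
-/

set_option autoImplicit false
set_option linter.unusedVariables false

namespace Pool.Agent.Q285.JQ

open Finset Module Q44.JQ
open Pool.Agent.TH344.JG (LocJ SelJ PR df)
open Pool.Agent.Y723.PT (tw dc LG isSquare_cancel)
open Pool.Agent.Q24.JQ (t_LBL cop_ne cop_mul ct_Uo)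
open scoped Classical

theorem sqR {x : ℝ} (h : 0 ≤ x) : IsSquare x := ⟨Real.sqrt x, (Real.mul_self_sqrt h).symm⟩

theorem Uo_sign {T : Finset ℕ} (hT : ∀ p ∈ T, p.Prime) (γ : Option T → ZMod 2) :
    (γ none = 0 → 0 < Uo γ) ∧ (γ none = 1 → Uo γ < 0) := by
  have h := congrFun (ct_Uo hT γ) none
  simp only [ct, Option.elim] at h
  have h0 := Uo_ne hT γ
  constructor
  · intro h1
    rw [h1] at h
    by_contra h2
    rw [if_pos (lt_of_le_of_ne (not_lt.1 h2) h0)] at h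
    exact absurd h (by decide)
  · intro h1
    rw [h1] at h
    by_contra h2
    rw [if_neg h2] at h
    exact absurd h (by decide)

theorem Uo_split {T : Finset ℕ} (hT : ∀ p ∈ T, p.Prime) (γ : Option T → ZMod 2) (p : T) :
    ∃ m : ℤ, ¬ ((p : ℕ) : ℤ) ∣ m ∧ Uo γ = ((p : ℕ) : ℤ) ^ (γ (some p)).val * m := by
  have pp := hT p p.2
  refine ⟨∏ o ∈ univ.erase (some p), (if γ o = 0 then 1 else tv o), ?_, ?_⟩
  · refine nd_prod pp _ _ fun o ho => nd_bit pp _ ?_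
    have hne : o ≠ some p := (mem_erase.1 ho).1
    cases o with
    | none =>
      show ¬ ((p : ℕ) : ℤ) ∣ -1
      rw [dvd_neg]
      exact nd_one pp
    | some t =>
      show ¬ ((p : ℕ) : ℤ) ∣ ((t : ℕ) : ℤ)
      intro h
      have h1 := (Nat.prime_dvd_prime_iff_eq pp (hT t t.2)).1 (Int.natCast_dvd_natCast.1 h)
      exact hne (by rw [Subtype.ext h1])
  · unfold Uo
    rw [← mul_prod_erase univ _ (mem_univ (some p))]
    congr 1
    exact bit_pow _ _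

/-- an integer of odd valuation is no square -/
theorem sq_val {p : ℕ} [Fact p.Prime] {m : ℤ} (hm : ¬ (p : ℤ) ∣ m)
    (h : IsSquare (((p : ℤ) * m : ℤ) : ℚ_[p])) : False := by
  have hpp : p.Prime := Fact.out
  obtain ⟨s, hs⟩ := h
  have h1 : ‖(((p : ℤ) * m : ℤ) : ℚ_[p])‖ = (p : ℝ) ^ (-1 : ℤ) := by
    push_cast
    rw [norm_mul, Padic.norm_p, zpow_neg_one]
    have h2 : ‖((m : ℤ) : ℚ_[p])‖ = 1 := by
      rcases lt_or_eq_of_le (Padic.norm_int_le_one (p := p) m) with h3 | h3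
      · exact absurd ((Padic.norm_intCast_lt_one_iff (p := p) (k := m)).1 h3) hm
      · exact h3
    rw [h2, mul_one]
  have hs0 : s ≠ 0 := by
    rintro rfl
    rw [hs, mul_zero, norm_zero] at h1
    have : (0 : ℝ) < (p : ℝ) ^ (-1 : ℤ) := zpow_pos (by exact_mod_cast hpp.pos) _
    exact this.ne h1
  rw [hs, norm_mul, Padic.norm_eq_zpow_neg_valuation hs0,
    ← zpow_add₀ (by exact_mod_cast hpp.ne_zero : (p : ℝ) ≠ 0)] at h1
  have h2 := zpow_right_injective₀ (by exact_mod_cast hpp.pos : (0 : ℝ) < p)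
    (by exact_mod_cast hpp.one_lt.ne' : (p : ℝ) ≠ 1) h1
  omega

section places

variable {T : Finset ℕ}

/-- every family of classes is the family of the classes of an integer -/
theorem sur [hF : ∀ p : T, Fact (p : ℕ).Prime] (hT : ∀ p ∈ T, p.Prime) (hT2 : 2 ∈ T)
    (x0 : ℝ) (hx0 : x0 ≠ 0) (x : ∀ p : T, ℚ_[(p : ℕ)]) (hx : ∀ p, x p ≠ 0) :
    ∃ δ ψ : Option T → ZMod 2, ∀ z : ℕ, Cop T z → lbl T z = ψ →
      IsSquare (x0 * ((Uo δ * z : ℤ) : ℝ)) ∧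
      ∀ p : T, IsSquare (x p * ((Uo δ * z : ℤ) : ℚ_[(p : ℕ)])) := by
  obtain ⟨-, -, l3, -⟩ := t_LBL T hT hT2
  choose e n hn hsq using fun p : T => ex_rep (hx p)
  obtain ⟨δ, hδ⟩ : ∃ δ : Option T → ZMod 2, δ = fun o => o.elim (if x0 < 0 then 1 else 0) e :=
    ⟨_, rfl⟩
  have hδn : δ none = if x0 < 0 then 1 else 0 := by rw [hδ]; rfl
  have hδs : ∀ p : T, δ (some p) = e p := fun p => by rw [hδ]; rfl
  choose m hm hUm using fun p : T => Uo_split hT δ p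
  have hp3 : ∀ p : T, (p : ℕ) ^ 3 ≠ 0 := fun p => pow_ne_zero 3 (hT p p.2).ne_zero
  obtain ⟨z0, hz0⟩ := Nat.chineseRemainderOfFinset
    (fun p : T => (((n p : ℤ) * m p) % (((p : ℕ) ^ 3 : ℕ) : ℤ)).toNat) (fun p : T => (p : ℕ) ^ 3)
    univ (fun p _ => hp3 p) (by
      intro p _ q _ hpq
      refine Nat.Coprime.pow 3 3 ((Nat.coprime_primes (hT p p.2) (hT q q.2)).2 ?_)
      exact fun h => hpq (Subtype.ext h))
  have hz : ∀ p : T, ((z0 : ℤ) : ZMod ((p : ℕ) ^ 3)) = (((n p : ℤ) * m p : ℤ) : ZMod ((p : ℕ) ^ 3)) := by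
    intro p
    have h1 := (ZMod.natCast_eq_natCast_iff _ _ _).2 (hz0 p (mem_univ p))
    rw [Int.cast_natCast, h1]
    have h2 : 0 ≤ ((n p : ℤ) * m p) % (((p : ℕ) ^ 3 : ℕ) : ℤ) :=
      Int.emod_nonneg _ (by exact_mod_cast hp3 p)
    rw [← Int.cast_natCast, Int.toNat_of_nonneg h2, ZMod.intCast_mod]
  have hcop : Cop T z0 := by
    intro p hp hd
    have pp := hT p hp
    have h1 := (ZMod.intCast_eq_intCast_iff_dvd_sub _ _ _).1 (hz ⟨p, hp⟩)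
    have h2 : (p : ℤ) ∣ ((p ^ 3 : ℕ) : ℤ) := by
      push_cast
      exact dvd_pow_self _ (by norm_num)
    have h3 : (p : ℤ) ∣ (n ⟨p, hp⟩ : ℤ) * m ⟨p, hp⟩ := by
      have h4 := dvd_add (h2.trans h1) (Int.natCast_dvd_natCast.2 hd)
      rwa [sub_add_cancel] at h4
    rcases (Nat.prime_iff_prime_int.1 pp).dvd_or_dvd h3 with h | h
    · exact hn ⟨p, hp⟩ (Int.natCast_dvd_natCast.1 h)
    · exact hm ⟨p, hp⟩ h
  refine ⟨δ, lbl T z0, fun z hzc hl => ⟨?_, fun p => ?_⟩⟩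
  · refine sqR ?_
    have hzp : (0 : ℝ) < z := by exact_mod_cast Nat.pos_of_ne_zero (cop_ne hT2 hzc)
    push_cast
    by_cases h : x0 < 0
    · have h1 : ((Uo δ : ℤ) : ℝ) < 0 := by
        exact_mod_cast (Uo_sign hT δ).2 (by rw [hδn, if_pos h])
      exact (mul_pos_of_neg_of_neg h (mul_neg_of_neg_of_pos h1 hzp)).le
    · have h1 : 0 < ((Uo δ : ℤ) : ℝ) := by
        exact_mod_cast (Uo_sign hT δ).1 (by rw [hδn, if_neg h])
      exact mul_nonneg (not_lt.1 h) (mul_pos h1 hzp).le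
  · have hp0 : ((p : ℕ) : ℚ_[(p : ℕ)]) ≠ 0 := by exact_mod_cast (hT p p.2).ne_zero
    have hnp : ((n p : ℕ) : ℚ_[(p : ℕ)]) ≠ 0 := by
      have : n p ≠ 0 := by
        intro h
        exact hn p (h ▸ dvd_zero _)
      exact_mod_cast this
    have hz0p : ((z0 : ℕ) : ℚ_[(p : ℕ)]) ≠ 0 := by exact_mod_cast cop_ne hT2 hcop
    have h1 : IsSquare (((z0 * (n p * m p) : ℤ)) : ℚ_[(p : ℕ)]) := by
      refine sq_near_int _ z0 (hcop p p.2) ?_
      rw [Int.cast_mul, ← hz p, Int.cast_natCast, pow_two]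
    have h2 := l3 z0 z hcop hzc hl.symm p p.2
    have h3 := ((hsq p).mul h1).mul h2
    have hU : ((Uo δ : ℤ) : ℚ_[(p : ℕ)]) = ((p : ℕ) : ℚ_[(p : ℕ)]) ^ (e p).val * ((m p : ℤ) : ℚ_[(p : ℕ)]) := by
      rw [hUm p, hδs]
      push_cast
      rfl
    have h4 : x p * (((p : ℕ) : ℚ_[(p : ℕ)]) ^ (e p).val * (n p : ℚ_[(p : ℕ)])) *
        (((z0 * (n p * m p) : ℤ)) : ℚ_[(p : ℕ)]) * ((z0 : ℚ_[(p : ℕ)]) * (z : ℚ_[(p : ℕ)])) =
        (((n p : ℚ_[(p : ℕ)]) * (z0 : ℚ_[(p : ℕ)])) * ((n p : ℚ_[(p : ℕ)]) * (z0 : ℚ_[(p : ℕ)]))) *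
        (x p * ((Uo δ * z : ℤ) : ℚ_[(p : ℕ)])) := by
      push_cast
      rw [hU]
      ring
    rw [h4] at h3
    exact isSquare_cancel (mul_ne_zero (mul_ne_zero hnp hz0p) (mul_ne_zero hnp hz0p)) ⟨_, rfl⟩ h3

/-- an integer with trivial classes -/
theorem inj0 [hF : ∀ p : T, Fact (p : ℕ).Prime] (hLSQ : S_LSQ) (hT : ∀ p ∈ T, p.Prime) (hT2 : 2 ∈ T)
    (δ : Option T → ZMod 2) (z : ℕ) (hz : Cop T z) (h0 : IsSquare ((Uo δ * z : ℤ) : ℝ))
    (h : ∀ p : T, IsSquare ((Uo δ * z : ℤ) : ℚ_[(p : ℕ)])) : δ = 0 ∧ lbl T z = 0 := by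
  have hzp : (0 : ℤ) < z := by exact_mod_cast Nat.pos_of_ne_zero (cop_ne hT2 hz)
  have hδ : δ = 0 := by
    funext o
    cases o with
    | none =>
      rcases two_cases (δ none) with h1 | h1
      · exact h1
      · exfalso
        have h2 := (Uo_sign hT δ).2 h1
        obtain ⟨s, hs⟩ := h0
        have h3 : (0 : ℝ) ≤ ((Uo δ * z : ℤ) : ℝ) := by
          rw [hs]
          exact mul_self_nonneg s
        have h4 : (0 : ℤ) ≤ Uo δ * z := by exact_mod_cast h3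
        have h5 := mul_neg_of_neg_of_pos h2 hzp
        omega
    | some p =>
      rcases two_cases (δ (some p)) with h1 | h1
      · exact h1
      · exfalso
        obtain ⟨m, hm, hU⟩ := Uo_split hT δ p
        have h2 := h p
        have hv : (1 : ZMod 2).val = 1 := rfl
        rw [hU, h1, hv, pow_one, mul_assoc] at h2
        refine sq_val ?_ h2
        intro hd
        rcases (Nat.prime_iff_prime_int.1 (hT p p.2)).dvd_or_dvd hd with h3 | h3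
        · exact hm h3
        · exact hz p p.2 (Int.natCast_dvd_natCast.1 h3)
  refine ⟨hδ, hLSQ T hT hT2 z hz fun p hfp hp => ?_⟩
  have h2 := h ⟨p, hp⟩
  have hU : Uo δ = 1 := by
    rw [hδ]
    unfold Uo
    exact prod_eq_one fun o _ => if_pos rfl
  rw [hU, one_mul, Int.cast_natCast] at h2
  exact h2

theorem inj2 [hF : ∀ p : T, Fact (p : ℕ).Prime] (hLSQ : S_LSQ) (hT : ∀ p ∈ T, p.Prime) (hT2 : 2 ∈ T)
    (δ δ' : Option T → ZMod 2) (z z' : ℕ) (hz : Cop T z) (hz' : Cop T z')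
    (h0 : IsSquare (((Uo δ * z : ℤ) : ℝ) * ((Uo δ' * z' : ℤ) : ℝ)))
    (h : ∀ p : T, IsSquare (((Uo δ * z : ℤ) : ℚ_[(p : ℕ)]) * ((Uo δ' * z' : ℤ) : ℚ_[(p : ℕ)]))) :
    δ = δ' ∧ lbl T z = lbl T z' := by
  obtain ⟨l1, -⟩ := t_LBL T hT hT2
  have key : ∀ (K : Type) [Field K] [CharZero K],
      IsSquare (((Uo δ * z : ℤ) : K) * ((Uo δ' * z' : ℤ) : K)) →
      IsSquare ((Uo (δ + δ') * ((z * z' : ℕ) : ℤ) : ℤ) : K) := by
    intro K _ _ hK
    have h1 := (Pool.Agent.Q121.JQ.Uo_sq δ δ').map (Int.castRingHom K)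
    have h2 := h1.mul hK
    have e1 : (Int.castRingHom K) (Uo δ * Uo δ' * Uo (δ + δ')) *
        (((Uo δ * z : ℤ) : K) * ((Uo δ' * z' : ℤ) : K)) =
        ((((Uo δ * Uo δ' : ℤ)) : K) * (((Uo δ * Uo δ' : ℤ)) : K)) *
        ((Uo (δ + δ') * ((z * z' : ℕ) : ℤ) : ℤ) : K) := by
      rw [eq_intCast]
      push_cast
      ring
    rw [e1] at h2
    have h3 : (((Uo δ * Uo δ' : ℤ)) : K) ≠ 0 :=
      Int.cast_ne_zero.2 (mul_ne_zero (Uo_ne hT δ) (Uo_ne hT δ'))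
    exact isSquare_cancel (mul_ne_zero h3 h3) ⟨_, rfl⟩ h2
  obtain ⟨h1, h2⟩ := inj0 hLSQ hT hT2 (δ + δ') (z * z') (cop_mul hT hz hz') (key ℝ h0)
    fun p => key _ (h p)
  have h3 : ∀ a b : ZMod 2, a + b = 0 → a = b := by decide
  rw [l1 _ _ hz hz'] at h2
  exact ⟨funext fun o => h3 _ _ (congrFun h1 o), funext fun o => h3 _ _ (congrFun h2 o)⟩

/-- the number of the square classes -/
theorem card_sc [hF : ∀ p : T, Fact (p : ℕ).Prime] (hLSQ : S_LSQ) (hT : ∀ p ∈ T, p.Prime)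
    (hT2 : 2 ∈ T) : Nat.card (SC ℝ) * ∏ p : T, Nat.card (SC ℚ_[(p : ℕ)]) = 4 ^ (T.card + 1) := by
  obtain ⟨-, -, -, l4, -⟩ := t_LBL T hT hT2
  have hcp : ∀ p : ℕ, p.Prime → p ∉ T → Cop T p := by
    intro p hpp hpT t ht hd
    rw [Nat.prime_dvd_prime_iff_eq (hT t ht) hpp] at hd
    exact hpT (hd ▸ ht)
  have hex : ∀ ψ : Option T → ZMod 2, ∃ z : ℕ, Cop T z ∧ lbl T z = ψ := fun ψ => by
    obtain ⟨p, h1, -, h2, h3⟩ := l4 ψ 0
    exact ⟨p, hcp p h1 h2, h3⟩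
  choose zc hz1 hz2 using hex
  have hne : ∀ δ ψ : Option T → ZMod 2, (Uo δ * (zc ψ : ℤ) : ℤ) ≠ 0 := fun δ ψ =>
    mul_ne_zero (Uo_ne hT δ) (by exact_mod_cast cop_ne hT2 (hz1 ψ))
  have hb : Function.Bijective (fun x : (Option T → ZMod 2) × (Option T → ZMod 2) =>
      ((cls (((Uo x.1 * (zc x.2 : ℤ) : ℤ)) : ℝ), fun p => cls (((Uo x.1 * (zc x.2 : ℤ) : ℤ)) : ℚ_[(p : ℕ)])) :
        SC ℝ × ∀ p : T, SC ℚ_[(p : ℕ)])) := by
    constructor
    · rintro ⟨δ, ψ⟩ ⟨δ', ψ'⟩ h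
      have h1 := (Prod.ext_iff.1 h).1
      have h2 := fun p => congrFun (Prod.ext_iff.1 h).2 p
      simp only at h1 h2
      rw [cls_eq (Int.cast_ne_zero.2 (hne _ _)) (Int.cast_ne_zero.2 (hne _ _))] at h1
      have h3 := inj2 hLSQ hT hT2 δ δ' (zc ψ) (zc ψ') (hz1 ψ) (hz1 ψ') h1 fun p =>
        (cls_eq (Int.cast_ne_zero.2 (hne _ _)) (Int.cast_ne_zero.2 (hne _ _))).1 (h2 p)
      rw [hz2, hz2] at h3
      rw [h3.1, h3.2]
    · rintro ⟨w0, w⟩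
      obtain ⟨x0, hx0, hw0⟩ := cls_surj w0
      choose x hx hw using fun p => cls_surj (w p)
      obtain ⟨δ, ψ, h⟩ := sur hT hT2 x0 hx0 x hx
      obtain ⟨h1, h2⟩ := h (zc ψ) (hz1 ψ) (hz2 ψ)
      refine ⟨(δ, ψ), Prod.ext ?_ (funext fun p => ?_)⟩
      · refine Eq.trans ?_ hw0
        exact ((cls_eq hx0 (Int.cast_ne_zero.2 (hne _ _))).2 h1).symm
      · refine Eq.trans ?_ (hw p)
        exact ((cls_eq (hx p) (Int.cast_ne_zero.2 (hne _ _))).2 (h2 p)).symm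
  have h := Nat.card_congr (Equiv.ofBijective _ hb)
  rw [Nat.card_prod, Nat.card_prod, Nat.card_pi (β := fun p : T => SC ℚ_[(p : ℕ)])] at h
  rw [← h, Nat.card_eq_fintype_card, Fintype.card_fun, Fintype.card_option, Fintype.card_coe,
    ZMod.card, ← mul_pow]
  norm_num

end places

end Pool.Agent.Q285.JQ
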